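import Pool.Agent.H856.KA.Stm

/-! # A root of unity which is congruent to one has an order which is a power of `p` -/

set_option autoImplicit false

open Polynomial

namespace Pool.Agent.H856.KA

open Pool.Agent.H856.WD

theorem c1_nat (h : S_VAL) (p : ℕ) [hp : Fact p.Prime] (d : ℕ) :
    ¬ p ∣ d → ‖iota p (d : AlgebraicClosure ℚ)‖ = 1 := by
  induction d using Nat.recOnMul with
  | zero => intro h0; exact absurd (dvd_zero p) h0
  | one =>
    intro _
    rw [Nat.cast_one, map_one, norm_one]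
  | prime l hl =>
    intro h0
    exact (h p).2.2.2.1 l hl (fun e => h0 (by rw [e]))
  | mul a b ha hb =>
    intro h0
    rw [Nat.cast_mul, map_mul, norm_mul, ha (fun e => h0 (e.mul_right b)),
      hb (fun e => h0 (e.mul_left a)), one_mul]

theorem c1 (h : S_VAL) : S_C1 := by
  intro p hp y m hm hy hlt
  have hint := (h p).2.1
  obtain ⟨k, m', hpm, rfl⟩ := Nat.exists_eq_pow_mul_and_not_dvd hm.ne' p hp.out.ne_one
  refine ⟨k, ?_⟩
  have hyint : IsIntegral ℤ y := by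
    apply IsIntegral.of_pow hm
    rw [hy]
    exact isIntegral_one
  have hz : (y ^ p ^ k) ^ m' = 1 := by rw [← pow_mul]; exact hy
  have hzint : IsIntegral ℤ (y ^ p ^ k) := hyint.pow _
  have hzlt : ‖iota p (y ^ p ^ k - 1)‖ < 1 := by
    rw [← mul_geom_sum, map_mul, norm_mul]
    have h1 : ‖iota p (∑ i ∈ Finset.range (p ^ k), y ^ i)‖ ≤ 1 :=
      hint _ (IsIntegral.sum _ fun i _ => hyint.pow i)
    calc ‖iota p (y - 1)‖ * ‖iota p (∑ i ∈ Finset.range (p ^ k), y ^ i)‖ ≤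
          ‖iota p (y - 1)‖ * 1 := mul_le_mul_of_nonneg_left h1 (norm_nonneg _)
      _ < 1 := by rw [mul_one]; exact hlt
  set z := y ^ p ^ k with hzd
  by_contra hz1
  have hdm : orderOf z ∣ m' := orderOf_dvd_of_pow_eq_one hz
  have hpd : ¬ p ∣ orderOf z := fun e => hpm (e.trans hdm)
  have hroot := IsPrimitiveRoot.orderOf z
  have hd0 : orderOf z ≠ 0 := fun e => hpd (by rw [e]; exact dvd_zero p)
  have hd1 : orderOf z ≠ 1 := fun e => hz1 (orderOf_eq_one_iff.1 e)
  obtain ⟨n, hn⟩ : ∃ n, orderOf z = n + 1 + 1 := ⟨orderOf z - 2, by omega⟩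
  rw [hn] at hroot
  have h1 := hroot.prod_one_sub_pow_eq_order
  have h2 : ‖iota p ((n + 1 + 1 : ℕ) : AlgebraicClosure ℚ)‖ = 1 := by
    rw [← hn]
    exact c1_nat h p _ hpd
  have h3 : (((n + 1 + 1 : ℕ) : AlgebraicClosure ℚ)) =
      ∏ k ∈ Finset.range (n + 1), (1 - z ^ (k + 1)) := by
    rw [h1]
    push_cast
    ring
  rw [h3, Finset.prod_range_succ', map_mul, norm_mul, zero_add, pow_one] at h2
  have h4 : ‖iota p (1 - z)‖ < 1 := by
    rw [← neg_sub, map_neg, norm_neg]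
    exact hzlt
  have h5 : ‖iota p (∏ k ∈ Finset.range n, (1 - z ^ (k + 1 + 1)))‖ ≤ 1 :=
    hint _ (IsIntegral.prod _ fun i _ => isIntegral_one.sub (hzint.pow _))
  have h6 : ‖iota p (∏ k ∈ Finset.range n, (1 - z ^ (k + 1 + 1)))‖ * ‖iota p (1 - z)‖ < 1 := by
    calc ‖iota p (∏ k ∈ Finset.range n, (1 - z ^ (k + 1 + 1)))‖ * ‖iota p (1 - z)‖ ≤
          1 * ‖iota p (1 - z)‖ := mul_le_mul_of_nonneg_right h5 (norm_nonneg _)
      _ < 1 := by rw [one_mul]; exact h4
  linarith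

end Pool.Agent.H856.KA
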