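import Pool.Agent.H856.KA.Stm

/-! # C2: roots of unity of `p`-power order with at most two conjugates over `ℚ(ζ)` (helper860) -/

set_option autoImplicit false

open Polynomial

namespace Pool.Agent.H856.KA

open Pool.Agent.H856.WD

namespace C2

/-- automorphisms which act on a root of unity as a power -/
lemma exists_aut {n : ℕ} (hn : 0 < n) {y : AlgebraicClosure ℚ} (hy : IsPrimitiveRoot y n) {c : ℕ}
    (hc : c.Coprime n) : ∃ g : AlgebraicClosure ℚ ≃+* AlgebraicClosure ℚ, g y = y ^ c := by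
  have h1 : IsConjRoot ℚ (y ^ c) y := by
    rw [isConjRoot_def, ← cyclotomic_eq_minpoly_rat (hy.pow_of_coprime c hc) hn,
      ← cyclotomic_eq_minpoly_rat hy hn]
  obtain ⟨δ, hδ⟩ := isConjRoot_iff_exists_algEquiv.1 h1
  exact ⟨δ.toRingEquiv, hδ⟩

/-- an automorphism which acts on `y` as the power `c`, `c` congruent to one, fixes `ζ` -/
lemma fix {p : ℕ} [Fact p.Prime] {ζ y : AlgebraicClosure ℚ} {m : ℕ} (hζ : IsPrimitiveRoot ζ p)
    (hy : IsPrimitiveRoot y (p ^ (m + 1))) {t : ℕ}
    {g : AlgebraicClosure ℚ ≃+* AlgebraicClosure ℚ} (hg : g y = y ^ (p * t + 1)) : g ζ = ζ := by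
  have hp0 : 0 < p := (Fact.out : p.Prime).pos
  have hne : NeZero p := ⟨hp0.ne'⟩
  have h1 : IsPrimitiveRoot (y ^ p ^ m) p :=
    hy.pow (pow_pos hp0 _) (pow_succ p m)
  obtain ⟨i, -, hi⟩ := h1.eq_pow_of_pow_eq_one hζ.pow_eq_one
  have h2 : g (y ^ p ^ m) = y ^ p ^ m := by
    rw [map_pow, hg, ← pow_mul]
    have h3 : (p * t + 1) * p ^ m = p ^ (m + 1) * t + p ^ m := by ring
    rw [h3, pow_add, pow_mul, hy.pow_eq_one, one_pow, one_mul]
  rw [← hi, map_pow, h2]

end C2

/-- **C2** -/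
theorem c2 : S_C2 := by
  intro p hp ζ y k hζ hyk hg hgex
  have hp' : p.Prime := hp.out
  have hp0 : 0 < p := hp'.pos
  obtain ⟨m, -, hm'⟩ := (Nat.dvd_prime_pow hp').1 (orderOf_dvd_of_pow_eq_one hyk)
  have hy : IsPrimitiveRoot y (p ^ m) := by
    have h := IsPrimitiveRoot.orderOf y
    rw [hm'] at h
    exact h
  have hy0 : y ≠ 0 := by
    intro h0
    rw [h0, zero_pow (pow_pos hp0 k).ne'] at hyk
    exact zero_ne_one hyk
  -- the divisibilities
  have key : ∀ m', m = m' + 1 → ∀ t : ℕ, p ^ m ∣ p * t ∨ p ^ m ∣ p * t + 2 := by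
    intro m' hmm t
    have hcop : (p * t + 1).Coprime (p ^ m) := by
      refine Nat.Coprime.pow_right m ?_
      rw [Nat.coprime_mul_left_add_left]
      exact Nat.coprime_one_left p
    obtain ⟨g, hgy⟩ := C2.exists_aut (pow_pos hp0 m) hy hcop
    have hfix : g ζ = ζ := by
      subst hmm
      exact C2.fix hζ hy hgy
    rcases hg g hfix with h | h
    · left
      rw [hgy] at h
      refine hy.dvd_of_pow_eq_one _ ?_
      have h2 : y ^ (p * t) * y = 1 * y := by
        rw [← pow_succ, h, one_mul]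
      exact mul_right_cancel₀ hy0 h2
    · right
      rw [hgy] at h
      refine hy.dvd_of_pow_eq_one _ ?_
      have h2 : p * t + 2 = (p * t + 1) + 1 := by ring
      rw [h2, pow_succ, h, inv_mul_cancel₀ hy0]
  constructor
  · intro hp2
    rcases Nat.lt_or_ge m 2 with hm2 | hm2
    · -- `y` is a power of `ζ`
      have hyp : y ^ p = 1 := by
        have h1 : p ^ m ∣ p := by
          have h2 : p ^ m ∣ p ^ 1 := pow_dvd_pow p (by omega)
          rwa [pow_one] at h2
        exact hy.pow_eq_one_iff_dvd p |>.2 h1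
      have hne : NeZero p := ⟨hp0.ne'⟩
      obtain ⟨i, -, hi⟩ := hζ.eq_pow_of_pow_eq_one hyp
      obtain ⟨g, hgζ, hgy⟩ := hgex
      have h1 : g y = y := by rw [← hi, map_pow, hgζ]
      rw [h1] at hgy
      have h2 : y ^ 2 = 1 := by
        rw [sq]
        nth_rewrite 2 [hgy]
        exact mul_inv_cancel₀ hy0
      have h3 : Nat.Coprime p 2 := (Nat.coprime_primes hp' Nat.prime_two).2 hp2
      have h4 : y ^ (Nat.gcd p 2) = 1 := pow_gcd_eq_one.2 ⟨hyp, h2⟩
      rw [h3] at h4
      rwa [pow_one] at h4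
    · exfalso
      have hpp : p ^ 2 ∣ p ^ m := pow_dvd_pow p hm2
      rcases key (m - 1) (by omega) 1 with h | h
      · have h1 : p ^ 2 ∣ p * 1 := dvd_trans hpp h
        rw [mul_one] at h1
        have h2 : p ^ 2 ≤ p := Nat.le_of_dvd hp0 h1
        have h3 := hp'.two_le
        nlinarith
      · have h1 : p ∣ p * 1 + 2 := dvd_trans (dvd_trans (dvd_pow_self p two_ne_zero) hpp) h
        have h2 : p ∣ 2 := (Nat.dvd_add_right (dvd_mul_right p 1)).1 h1
        exact hp2 ((Nat.prime_dvd_prime_iff_eq hp' Nat.prime_two).1 h2)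
  · intro hp2
    subst hp2
    have hm3 : m < 3 := by
      by_contra hcon
      push Not at hcon
      have hpp : 2 ^ 3 ∣ 2 ^ m := pow_dvd_pow 2 hcon
      rcases key (m - 1) (by omega) 1 with h | h
      · have h1 := dvd_trans hpp h
        revert h1
        decide
      · have h1 := dvd_trans hpp h
        revert h1
        decide
    have h1 : 2 ^ m ∣ 2 ^ 2 := pow_dvd_pow 2 (by omega)
    exact (hy.pow_eq_one_iff_dvd 4).2 h1

end Pool.Agent.H856.KA
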