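import Pool.Agent.H856.KA.Stm

/-! # C3: the roots of an ordinary quadratic polynomial are conjugate over `ℚ(ζ)` -/

set_option autoImplicit false

namespace Pool.Agent.H856.KA

open Pool.Agent.H856.WD

/-- complex conjugation on the algebraic numbers -/
theorem c3_conj (j : AlgebraicClosure ℚ →+* ℂ) :
    ∃ c : AlgebraicClosure ℚ ≃+* AlgebraicClosure ℚ, ∀ x, j (c x) = starRingEnd ℂ (j x) := by
  let _ : Algebra (AlgebraicClosure ℚ) ℂ := j.toAlgebra
  have _ : IsScalarTower ℚ (AlgebraicClosure ℚ) ℂ :=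
    IsScalarTower.of_algebraMap_eq' (Subsingleton.elim _ _)
  let χ : ℂ ≃ₐ[ℚ] ℂ := Complex.conjAe.restrictScalars ℚ
  refine ⟨(χ.restrictNormal (AlgebraicClosure ℚ)).toRingEquiv, fun x => ?_⟩
  exact AlgEquiv.restrictNormal_commutes χ (AlgebraicClosure ℚ) x

theorem c3_norm_p (p : ℕ) [Fact p.Prime] : ‖iota p (p : AlgebraicClosure ℚ)‖ = (p : ℝ)⁻¹ := by
  rw [map_natCast]
  have h1 := PadicAlgCl.norm_extends (p := p) (x := (p : ℚ_[p]))
  rw [Padic.norm_p] at h1
  rw [← h1]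
  congr 1

theorem c3 : S_C3 := by
  intro p hp e ζ u w he hζ huw hS hφ hu
  by_contra hcon
  push Not at hcon
  have hp0 : p ≠ 0 := hp.out.ne_zero
  have hpA : ((p : AlgebraicClosure ℚ) ^ e) ≠ 0 := pow_ne_zero _ (Nat.cast_ne_zero.2 hp0)
  have hu0 : u ≠ 0 := by
    intro h
    rw [h, zero_mul] at huw
    exact hpA huw.symm
  -- the automorphisms which fix `ζ` fix `u`
  have hfix : ∀ g : AlgebraicClosure ℚ ≃+* AlgebraicClosure ℚ, g ζ = ζ → g u = u := by
    intro g hg
    have h1 := hS g hg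
    rw [map_add] at h1
    have h2 : g u * g w = (p : AlgebraicClosure ℚ) ^ e := by
      rw [← map_mul, huw, map_pow, map_natCast]
    have h3 : (g u - u) * (g u - w) = 0 := by
      linear_combination g u * h1 + huw - h2
    rcases mul_eq_zero.1 h3 with h | h
    · exact sub_eq_zero.1 h
    · exact absurd (sub_eq_zero.1 h) (hcon g hg)
  -- complex conjugation
  let φ : AlgebraicClosure ℚ →+* ℂ := (IsAlgClosed.lift : AlgebraicClosure ℚ →ₐ[ℚ] ℂ).toRingHom
  obtain ⟨c, hc⟩ := c3_conj φ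
  have hζp : ζ ^ p = 1 := hζ.pow_eq_one
  have hcζ : c ζ = ζ⁻¹ := by
    apply φ.injective
    have h1 : ‖φ ζ‖ = 1 := Complex.norm_eq_one_of_pow_eq_one (by rw [← map_pow, hζp, map_one]) hp0
    rw [hc, map_inv₀, ← Complex.inv_eq_conj h1]
  -- the automorphism at `p`
  obtain ⟨d, hd, hv⟩ := exists_d p ζ hζ (-1)
  have hdζ : d ζ = ζ⁻¹ := by
    rw [hd]
    apply eq_inv_of_mul_eq_one_left
    rw [← pow_succ]
    have h1 : p ∣ ((((-1 : (ZMod p)ˣ) : ZMod p)).val + 1) := by
      rw [← ZMod.natCast_eq_zero_iff]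
      push_cast
      rw [ZMod.natCast_zmod_val]
      ring
    obtain ⟨k, hk⟩ := h1
    rw [hk, pow_mul, hζp, one_pow]
  have hg := hfix (c.trans d.symm) (by
    change d.symm (c ζ) = ζ
    rw [hcζ, ← hdζ, RingEquiv.symm_apply_apply])
  have hcd : c u = d u := by
    have h1 : d.symm (c u) = u := hg
    rw [← RingEquiv.apply_symm_apply d (c u), h1]
  -- `c u = w`
  have hcw : c u = w := by
    apply φ.injective
    rw [hc]
    have h1 : φ u ≠ 0 := (map_ne_zero φ).2 hu0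
    apply mul_left_cancel₀ h1
    rw [Complex.mul_conj, ← map_mul, huw, map_pow, map_natCast, Complex.normSq_eq_norm_sq, hφ φ]
    push_cast
    rfl
  have hdw : d u = w := hcd.symm.trans hcw
  -- the absolute values
  have h1 : val p w = 0 := by
    rw [← hdw, hv, val, hu, Real.log_one, neg_zero]
  have hw0 : w ≠ 0 := by
    intro h
    rw [h, mul_zero] at huw
    exact hpA huw.symm
  have h2 := norm_eq_one p hw0 h1
  have h3 : ‖iota p u‖ * ‖iota p w‖ = (p : ℝ)⁻¹ ^ e := by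
    rw [← norm_mul, ← map_mul, huw, map_pow, norm_pow, c3_norm_p]
  rw [hu, h2, mul_one] at h3
  have h4 : (p : ℝ)⁻¹ < 1 := inv_lt_one_of_one_lt₀ (by exact_mod_cast hp.out.one_lt)
  have h5 : (p : ℝ)⁻¹ ^ e < 1 := pow_lt_one₀ (by positivity) h4 he.ne'
  linarith

end Pool.Agent.H856.KA
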