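import Pool.Agent.H856.KA.Stm

/-! # The independence for one prime -/

set_option autoImplicit false

open Polynomial

namespace Pool.Agent.H856.KA

open Pool.Agent.H856.WD

/-- the automorphisms which fix `ζ` -/
def Gs (ζ : AlgebraicClosure ℚ) : Subgroup (RingAut (AlgebraicClosure ℚ)) where
  carrier := {g | g ζ = ζ}
  mul_mem' := by
    intro a b ha hb
    show a (b ζ) = ζ
    rw [show b ζ = ζ from hb]
    exact ha
  one_mem' := rfl
  inv_mem' := by
    intro a ha
    show a.symm ζ = ζ
    rw [RingEquiv.symm_apply_eq]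
    exact (show a ζ = ζ from ha).symm

lemma swap {u w : AlgebraicClosure ℚ} (g : AlgebraicClosure ℚ ≃+* AlgebraicClosure ℚ)
    (hs : g (u + w) = u + w) (hp : g (u * w) = u * w) :
    (g u = u ∧ g w = w) ∨ (g u = w ∧ g w = u) := by
  rw [map_add] at hs
  rw [map_mul] at hp
  have h1 : (g u - u) * (g u - w) = 0 := by
    linear_combination (g u) * hs - hp
  rcases mul_eq_zero.1 h1 with h2 | h2
  · left
    have h3 : g u = u := sub_eq_zero.1 h2
    refine ⟨h3, ?_⟩
    rw [h3] at hs
    exact add_left_cancel hs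
  · right
    have h3 : g u = w := sub_eq_zero.1 h2
    refine ⟨h3, ?_⟩
    rw [h3, add_comm] at hs
    exact add_right_cancel hs

open Classical in
/-- the sign character -/
noncomputable def sg (ζ u w : AlgebraicClosure ℚ) (huw : u ≠ w)
    (h : ∀ g : AlgebraicClosure ℚ ≃+* AlgebraicClosure ℚ, g ζ = ζ →
      (g u = u ∧ g w = w) ∨ (g u = w ∧ g w = u)) : Gs ζ →* ℚ where
  toFun g := if (g : RingAut (AlgebraicClosure ℚ)) u = u then 1 else -1
  map_one' := if_pos rfl
  map_mul' := by
    intro a b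
    have e : ((a * b : Gs ζ) : RingAut (AlgebraicClosure ℚ)) u =
      (a : RingAut (AlgebraicClosure ℚ)) ((b : RingAut (AlgebraicClosure ℚ)) u) := rfl
    rw [e]
    rcases h _ b.2 with ⟨hb, hb'⟩ | ⟨hb, hb'⟩ <;> rcases h _ a.2 with ⟨ha, ha'⟩ | ⟨ha, ha'⟩
    · rw [hb, if_pos ha, if_pos rfl, mul_one]
    · rw [hb, ha, if_neg huw.symm, if_pos rfl, mul_one]
    · rw [hb, ha', ha, if_neg huw.symm, if_pos rfl, one_mul]
    · rw [hb, ha', ha, if_pos rfl, if_neg huw.symm]
      norm_num

theorem core (hV : S_VAL) (h1 : S_C1) (h2 : S_C2) (h3 : S_C3) : S_CORE := by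
  classical
  intro p hp e ζ I _ S u w n he hζ hS hadd hmul hui hwi habs hcong hun hinj htwo hrel
  obtain ⟨vadd, vint, vp, vl, vz⟩ := hV p
  have hp0 : (p : AlgebraicClosure ℚ) ≠ 0 := by exact_mod_cast hp.out.ne_zero
  have hq0 : (p : AlgebraicClosure ℚ) ^ e ≠ 0 := pow_ne_zero _ hp0
  have hu0 : ∀ i, u i ≠ 0 := fun i h => hq0 (by rw [← hmul i, h, zero_mul])
  have hw0 : ∀ i, w i ≠ 0 := fun i h => hq0 (by rw [← hmul i, h, mul_zero])
  have hiota : ∀ x y : AlgebraicClosure ℚ, ‖iota p (x * y)‖ = ‖iota p x‖ * ‖iota p y‖ := by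
    intro x y
    rw [map_mul, norm_mul]
  set c : ℝ := ‖iota p (p : AlgebraicClosure ℚ)‖ ^ e with hc
  have hc1 : c < 1 := pow_lt_one₀ (norm_nonneg _) vp he.ne'
  have hc0 : 0 < c := pow_pos (lt_of_le_of_ne (norm_nonneg _) (norm_ne p hp0).symm) e
  have hwn : ∀ i, ‖iota p (w i)‖ = c := by
    intro i
    have h4 : ‖iota p (u i * w i)‖ = ‖iota p ((p : AlgebraicClosure ℚ) ^ e)‖ := by rw [hmul i]
    rw [hiota, hun i, one_mul, map_pow, norm_pow] at h4
    exact h4
  have huw : ∀ i, u i ≠ w i := by
    intro i h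
    have h4 := hun i
    rw [h, hwn i] at h4
    exact hc1.ne h4
  have hsw : ∀ i (g : AlgebraicClosure ℚ ≃+* AlgebraicClosure ℚ), g ζ = ζ →
      (g (u i) = u i ∧ g (w i) = w i) ∨ (g (u i) = w i ∧ g (w i) = u i) := by
    intro i g hg
    refine swap g ?_ ?_
    · rw [hadd i]
      exact hS i g hg
    · rw [hmul i, map_pow, map_natCast]
  -- the sum
  have hsum : ∀ g : AlgebraicClosure ℚ ≃+* AlgebraicClosure ℚ, g ζ = ζ →
      ∑ i, n i * (if g (u i) = u i then (1 : ℤ) else -1) = 0 := by
    intro g hg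
    have h4 := hrel g
    rw [map_prod, map_prod, norm_prod] at h4
    have h5 : ∀ i, ‖iota p (g ((u i / w i) ^ n i))‖ =
        c ^ (-(n i * (if g (u i) = u i then (1 : ℤ) else -1))) := by
      intro i
      rw [map_zpow₀, map_zpow₀, norm_zpow, map_div₀, map_div₀, norm_div]
      rcases hsw i g hg with ⟨h6, h7⟩ | ⟨h6, h7⟩
      · rw [h6, h7, hun i, hwn i, if_pos rfl, one_div, inv_zpow', mul_one]
      · rw [h6, h7, hun i, hwn i, if_neg (huw i).symm, div_one]
        congr 1
        ring
    simp_rw [h5] at h4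
    have h6 : ∀ s : Finset I, ∏ i ∈ s, c ^ (-(n i * (if g (u i) = u i then (1 : ℤ) else -1))) =
        c ^ (-∑ i ∈ s, n i * (if g (u i) = u i then (1 : ℤ) else -1)) := by
      intro s
      induction s using Finset.induction_on with
      | empty => simp
      | insert i s hi ih =>
        rw [Finset.prod_insert hi, Finset.sum_insert hi, ih, ← zpow_add₀ hc0.ne']
        congr 1
        ring
    rw [h6] at h4
    have h7 := (zpow_eq_one_iff_right₀ hc0.le hc1.ne).1 h4
    linarith
  let χ : I → (Gs ζ →* ℚ) := fun i => sg ζ (u i) (w i) (huw i) (hsw i)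
  have hχ : ∀ i (g : Gs ζ), χ i g =
      if (g : RingAut (AlgebraicClosure ℚ)) (u i) = u i then 1 else -1 := fun i g => rfl
  -- the characters are different
  have hχinj : Function.Injective χ := by
    intro i j hij
    have hpair : ∀ g : AlgebraicClosure ℚ ≃+* AlgebraicClosure ℚ, g ζ = ζ →
        (g (u i) = u i ∧ g (u j) = u j) ∨ (g (u i) = w i ∧ g (u j) = w j) := by
      intro g hg
      have h4 := DFunLike.congr_fun hij (⟨g, hg⟩ : Gs ζ)
      rw [hχ, hχ] at h4
      have e1 : ((⟨g, hg⟩ : Gs ζ) : RingAut (AlgebraicClosure ℚ)) = g := rfl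
      rw [e1] at h4
      rcases hsw i g hg with ⟨h5, -⟩ | ⟨h5, -⟩ <;> rcases hsw j g hg with ⟨h6, -⟩ | ⟨h6, -⟩
      · exact Or.inl ⟨h5, h6⟩
      · exfalso
        have h7 : g (u j) ≠ u j := by rw [h6]; exact (huw j).symm
        rw [if_pos h5, if_neg h7] at h4
        norm_num at h4
      · exfalso
        have h7 : g (u i) ≠ u i := by rw [h5]; exact (huw i).symm
        rw [if_pos h6, if_neg h7] at h4
        norm_num at h4
      · exact Or.inr ⟨h5, h6⟩
    set y : AlgebraicClosure ℚ := u i / u j with hy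
    have hy0 : y ≠ 0 := div_ne_zero (hu0 i) (hu0 j)
    have hww : w i / w j = y⁻¹ := by
      rw [hy, inv_div, div_eq_div_iff (hw0 j) (hu0 i), mul_comm (w i), mul_comm (u j) ]
      rw [hmul i, mul_comm (w j), hmul j]
    have hgy : ∀ g : AlgebraicClosure ℚ ≃+* AlgebraicClosure ℚ, g ζ = ζ → g y = y ∨ g y = y⁻¹ := by
      intro g hg
      rcases hpair g hg with ⟨h4, h5⟩ | ⟨h4, h5⟩
      · left
        rw [hy, map_div₀, h4, h5]
      · right
        rw [← hww, hy, map_div₀, h4, h5]
    have hyn : ‖iota p y‖ = 1 := by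
      rw [hy, map_div₀, norm_div, hun i, hun j, div_one]
    have hval : ∀ g : AlgebraicClosure ℚ ≃+* AlgebraicClosure ℚ, g ζ = ζ → val p (g y) = 0 := by
      intro g hg
      rcases hgy g hg with h4 | h4
      · rw [h4, val, hyn, Real.log_one, neg_zero]
      · rw [h4, val, map_inv₀, norm_inv, hyn, inv_one, Real.log_one, neg_zero]
    have hphi : ∀ φ : AlgebraicClosure ℚ →+* ℂ, ‖φ y‖ = 1 := by
      intro φ
      have h4 : ‖φ y‖ ^ 2 = 1 := by
        rw [hy, map_div₀, norm_div, div_pow, habs i φ, habs j φ, div_self]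
        exact pow_ne_zero _ (by exact_mod_cast hp.out.ne_zero)
      exact (pow_eq_one_iff_of_nonneg (norm_nonneg _) two_ne_zero).1 h4
    have hint : IsIntegral ℤ ((p : AlgebraicClosure ℚ) ^ e * y) := by
      have h4 : (p : AlgebraicClosure ℚ) ^ e * y = u i * w j := by
        rw [← hmul j, hy]
        field_simp [hu0 j]
      rw [h4]
      exact (hui i).mul (hwi j)
    obtain ⟨m, hm, hym⟩ := kron y (integral p y e hint (conj_norm p ζ hζ y hy0 hval)) hphi
    have hsub : ‖iota p (y - 1)‖ < 1 := by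
      have h4 : y - 1 = ((S i + 1) + (-(w i) + (-(S j + 1) + w j))) / u j := by
        rw [← hadd i, ← hadd j, hy]
        field_simp [hu0 j]
        ring
      rw [h4, map_div₀, norm_div, hun j, div_one]
      have hneg : ∀ x, ‖iota p (-x)‖ = ‖iota p x‖ := by
        intro x
        rw [map_neg, norm_neg]
      refine (vadd _ _).trans_lt (max_lt (hcong i) ?_)
      refine (vadd _ _).trans_lt (max_lt ?_ ?_)
      · rw [hneg, hwn i]
        exact hc1
      · refine (vadd _ _).trans_lt (max_lt ?_ ?_)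
        · rw [hneg]
          exact hcong j
        · rw [hwn j]
          exact hc1
    obtain ⟨k, hk⟩ := h1 p y m hm hym hsub
    obtain ⟨g0, hg0, hg0'⟩ := h3 p e ζ (u i) (w i) he hζ (hmul i) (fun g hg => by
      rw [hadd i]
      exact hS i g hg) (habs i) (hun i)
    have hex : ∃ g : AlgebraicClosure ℚ ≃+* AlgebraicClosure ℚ, g ζ = ζ ∧ g y = y⁻¹ := by
      refine ⟨g0, hg0, ?_⟩
      rcases hpair g0 hg0 with ⟨h4, -⟩ | ⟨h4, h5⟩
      · exact absurd (h4.symm.trans hg0') (huw i)
      · rw [← hww, hy, map_div₀, h4, h5]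
    obtain ⟨hodd, heven⟩ := h2 p ζ y k hζ hk hgy hex
    have hfin : y = 1 → i = j := by
      intro h4
      apply hinj
      have h5 : u i = u j := by
        rw [hy] at h4
        exact (div_eq_one_iff_eq (hu0 j)).1 h4
      have h6 : w i = w j := by
        have h7 := (hmul i).trans (hmul j).symm
        rw [h5] at h7
        exact mul_left_cancel₀ (hu0 j) h7
      rw [← hadd i, ← hadd j, h5, h6]
    by_cases hp2 : p = 2
    · rcases htwo hp2 with h4 | h4
      · exact Subsingleton.elim i j
      · obtain ⟨a, ha⟩ := h4 i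
        obtain ⟨b, hb⟩ := h4 j
        have hui' : u i = y * u j := by rw [hy, div_mul_cancel₀ _ (hu0 j)]
        have hwi' : w i = y⁻¹ * w j := by rw [← hww, div_mul_cancel₀ _ (hw0 j)]
        have h5 : (y ^ 2 - 1) * (y ^ 2 + 1) = 0 := by
          have := heven hp2
          linear_combination this
        rcases mul_eq_zero.1 h5 with h6 | h6
        · have h7 : (y - 1) * (y + 1) = 0 := by linear_combination h6
          rcases mul_eq_zero.1 h7 with h8 | h8
          · exact hfin (sub_eq_zero.1 h8)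
          · exfalso
            have h9 : y = -1 := eq_neg_of_add_eq_zero_left h8
            have h10 : S i = - S j := by
              rw [← hadd i, ← hadd j, hui', hwi', h9]
              rw [inv_neg, inv_one]
              ring
            rw [ha, hb] at h10
            have h11 : ((4 * a - 1 : ℤ) : AlgebraicClosure ℚ) = ((-(4 * b - 1) : ℤ) : AlgebraicClosure ℚ) := by
              push_cast
              exact h10
            have h12 : (4 * a - 1 : ℤ) = -(4 * b - 1) := by exact_mod_cast h11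
            omega
        · exfalso
          have h7 : y ^ 2 = -1 := eq_neg_of_add_eq_zero_left h6
          have h8 : (y⁻¹) ^ 2 = -1 := by rw [inv_pow, h7, inv_neg, inv_one]
          have h9 : S i ^ 2 + S j ^ 2 = 4 * (p : AlgebraicClosure ℚ) ^ e := by
            rw [← hadd i, ← hadd j]
            have e1 : u i ^ 2 = - u j ^ 2 := by rw [hui', mul_pow, h7]; ring
            have e2 : w i ^ 2 = - w j ^ 2 := by rw [hwi', mul_pow, h8]; ring
            linear_combination e1 + e2 + 2 * hmul i + 2 * hmul j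
          rw [ha, hb, hp2] at h9
          have h11 : (((4 * a - 1) ^ 2 + (4 * b - 1) ^ 2 : ℤ) : AlgebraicClosure ℚ) =
              ((4 * 2 ^ e : ℤ) : AlgebraicClosure ℚ) := by
            push_cast
            push_cast at h9
            exact h9
          have h12 : ((4 * a - 1) ^ 2 + (4 * b - 1) ^ 2 : ℤ) = 4 * 2 ^ e := by exact_mod_cast h11
          have h13 : (4 * (4 * a ^ 2 - 2 * a + 4 * b ^ 2 - 2 * b) + 2 : ℤ) = 4 * 2 ^ e := by
            rw [← h12]
            ring
          omega
    · exact hfin (hodd hp2)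
  -- linear independence of the characters
  have hli : LinearIndependent ℚ (fun i => (χ i : Gs ζ → ℚ)) :=
    (linearIndependent_monoidHom (Gs ζ) ℚ).comp χ hχinj
  rw [Fintype.linearIndependent_iff] at hli
  intro i
  have h4 := hli (fun i => (n i : ℚ)) (by
    funext g
    simp only [Finset.sum_apply, Pi.smul_apply, smul_eq_mul, Pi.zero_apply]
    have h5 := hsum g.1 g.2
    have h6 : ((∑ i, n i * (if (g : RingAut (AlgebraicClosure ℚ)) (u i) = u i then (1 : ℤ) else -1) : ℤ) : ℚ) = 0 := by
      have : (∑ i, n i * (if (g : RingAut (AlgebraicClosure ℚ)) (u i) = u i then (1 : ℤ) else -1) : ℤ) = 0 := h5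
      rw [this]
      exact Int.cast_zero
    rw [← h6]
    push_cast
    refine Finset.sum_congr rfl fun i _ => ?_
    rw [hχ]) i
  exact_mod_cast h4

end Pool.Agent.H856.KA
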