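import Pool.Agent.H856.KA.Stm
import Pool.Graph.R_seed8.Y145.KS.Kl2

/-! # Kloosterman sums over the extensions of the prime field -/

set_option autoImplicit false
set_option linter.unusedSectionVars false

namespace Pool.Agent.H856.KA

open Polynomial Finset
open Pool.Agent.H341R2.Sharp Pool.Agent.H498R2.Kl

section Gen

variable {F : Type*} [Field F] [Fintype F] [DecidableEq F]

/-- The coefficient of degree two is the number of elements of the field. -/
theorem AG_two_gen {ψ : AddChar F ℂ} (hψ : ψ ≠ 1) {a b : F} (ha : a ≠ 0) (hb : b ≠ 0) :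
    AG (lamK ψ a b) 2 = Fintype.card F := by
  classical
  have h1 : AG (lamK ψ a b) 2 = ∑ z : F × F,
      (if z.2 = 0 then (0 : ℂ) else ψ (-(a * z.1 + b * (z.1 / z.2)))) := by
    unfold AG
    symm
    refine sum_bij (fun (z : F × F) _ => (X ^ 2 + C z.1 * X + C z.2 : F[X])) ?_ ?_ ?_ ?_
    · intro z _
      rw [mem_Mon]
      constructor
      · monicity!
      · compute_degree!
    · intro z _ w _ h
      have e0 := congrArg (fun P : F[X] => P.coeff 0) h
      have e1 := congrArg (fun P : F[X] => P.coeff 1) h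
      simp [coeff_X, coeff_C] at e0 e1
      exact Prod.ext e1 e0
    · intro h hh
      rw [mem_Mon] at hh
      refine ⟨(h.coeff 1, h.coeff 0), mem_univ _, ?_⟩
      have h2 := h.as_sum_range_C_mul_X_pow
      rw [hh.2] at h2
      have h3 : h.coeff 2 = 1 := by
        have := hh.1
        rw [Monic, leadingCoeff, hh.2] at this
        exact this
      rw [h2]
      simp only [sum_range_succ, sum_range_zero, h3]
      simp
      ring
    · intro z _
      have hnd : (X ^ 2 + C z.1 * X + C z.2 : F[X]).natDegree = 2 := by compute_degree!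
      have e0 : (X ^ 2 + C z.1 * X + C z.2 : F[X]).coeff 0 = z.2 := by simp
      have e1 : (X ^ 2 + C z.1 * X + C z.2 : F[X]).coeff 1 = z.1 := by simp [coeff_C]
      have e2 : (X ^ 2 + C z.1 * X + C z.2 : F[X]).nextCoeff = z.1 := by
        rw [nextCoeff_of_natDegree_pos (by rw [hnd]; omega), hnd, e1]
      unfold lamK
      rw [e0, e1, e2]
  rw [h1, Fintype.sum_prod_type, sum_comm]
  have h2 : ∀ c : F, ∑ x : F, (if c = 0 then (0 : ℂ) else ψ (-(a * x + b * (x / c)))) =
      if c = -(b / a) then (Fintype.card F : ℂ) else 0 := by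
    intro c
    by_cases hc : c = 0
    · rw [if_neg]
      · simp [hc]
      · rw [hc]
        intro h
        exact (neg_ne_zero.2 (div_ne_zero hb ha)) h.symm
    · simp only [if_neg hc]
      have h3 : ∀ x : F, ψ (-(a * x + b * (x / c))) = ψ (x * (-(a + b * c⁻¹))) := by
        intro x
        congr 1
        rw [div_eq_mul_inv]
        ring
      simp_rw [h3]
      have h4 : (-(a + b * c⁻¹) = 0) ↔ c = -(b / a) := by
        rw [neg_eq_zero]
        constructor
        · intro h
          have h5 : a * c + b = 0 := by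
            have := congrArg (fun z => c * z) h
            simp only [mul_add, mul_zero] at this
            have h6 : c * (b * c⁻¹) = b := by
              field_simp
            rw [h6] at this
            rw [mul_comm a c]
            exact this
          field_simp
          linear_combination h5
        · intro h
          have h5 : a * c + b = 0 := by
            rw [h]
            field_simp
            ring
          have h6 : a + b * c⁻¹ = (a * c + b) * c⁻¹ := by
            rw [add_mul, mul_assoc, mul_inv_cancel₀ hc, mul_one]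
          rw [h6, h5, zero_mul]
      by_cases h5 : c = -(b / a)
      · rw [if_pos h5, h4.2 h5]
        simp
      · rw [if_neg h5]
        have h6 : -(a + b * c⁻¹) ≠ 0 := fun h => h5 (h4.1 h)
        have h7 : ∑ x : F, ψ (x * (-(a + b * c⁻¹))) = ∑ x : F, ψ x := by
          refine Fintype.sum_equiv (Equiv.mulRight₀ _ h6) _ _ fun x => ?_
          rfl
        rw [h7]
        exact AddChar.sum_eq_zero_of_ne_one hψ
  simp_rw [h2]
  simp

/-- The coefficient of degree one. -/
theorem AG_one_gen {ψ : AddChar F ℂ} (hψ : ψ ≠ 1) {a b : F} (ha : a ≠ 0) :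
    TG (lamK ψ a b) 1 = AG (lamK ψ a b) 1 := by
  have h3 := LK_HID hψ ha b 1
  rw [Icc_self, sum_singleton, Nat.sub_self, LK_zero hψ ha, one_mul, Nat.cast_one,
    one_mul, LK_coeff hψ ha] at h3
  exact h3.symm

/-- The sums over the extensions are given by the powers of the two roots. -/
theorem TG_eigen {ψ : AddChar F ℂ} (hψ : ψ ≠ 1) {a b : F} (ha : a ≠ 0) (hb : b ≠ 0) (α β : ℂ)
    (hsum : α + β = -AG (lamK ψ a b) 1) (hprod : α * β = Fintype.card F) :
    ∀ m : ℕ, 0 < m → TG (lamK ψ a b) m = -(α ^ m + β ^ m) := by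
  have hHID := LK_HID hψ ha b
  intro m
  induction m using Nat.strong_induction_on with
  | _ m ih =>
    intro hm
    have h1 := hHID m
    rcases Nat.lt_or_ge m 3 with h3 | h3
    · interval_cases m
      · rw [Icc_self, sum_singleton, Nat.sub_self, LK_zero hψ ha, one_mul, Nat.cast_one,
          one_mul, LK_coeff hψ ha] at h1
        rw [← h1]
        linear_combination hsum
      · have hI : Icc 1 2 = ({1, 2} : Finset ℕ) := by decide
        rw [hI, sum_pair (by norm_num), LK_coeff hψ ha, LK_coeff hψ ha, LK_coeff hψ ha,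
          AG_two_gen hψ ha hb] at h1
        rw [ih 1 (by norm_num) one_pos, show 2 - 1 = 1 from rfl, Nat.sub_self,
          AG_zero (lamK_mult ψ a b)] at h1
        push_cast at h1
        have h2 : AG (lamK ψ a b) 1 = -(α + β) := by rw [hsum]; ring
        rw [h2] at h1
        rw [← hprod] at h1
        linear_combination -h1
    · rw [LK_coeff hψ ha, AK_eq_zero hψ ha b m h3, mul_zero] at h1
      have h4 : ∑ x ∈ Icc 1 m, (LK ψ a b).coeff (m - x) * TG (lamK ψ a b) x =
          ∑ x ∈ ({m - 2, m - 1, m} : Finset ℕ), (LK ψ a b).coeff (m - x) * TG (lamK ψ a b) x := by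
        symm
        refine sum_subset ?_ ?_
        · intro x hx
          simp only [mem_insert, mem_singleton] at hx
          rw [mem_Icc]
          omega
        · intro x hx hx2
          simp only [mem_insert, mem_singleton, not_or] at hx2
          rw [mem_Icc] at hx
          rw [LK_coeff hψ ha, AK_eq_zero hψ ha b _ (by omega), zero_mul]
      rw [h4, sum_insert, sum_pair (by omega)] at h1
      · rw [Nat.sub_self, show m - (m - 1) = 1 by omega, show m - (m - 2) = 2 by omega,
          LK_coeff hψ ha, LK_coeff hψ ha, LK_coeff hψ ha, AG_two_gen hψ ha hb,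
          AG_zero (lamK_mult ψ a b), ih (m - 2) (by omega) (by omega),
          ih (m - 1) (by omega) (by omega)] at h1
        have h2 : AG (lamK ψ a b) 1 = -(α + β) := by rw [hsum]; ring
        rw [h2, ← hprod] at h1
        obtain ⟨k, rfl⟩ : ∃ k, m = k + 2 := ⟨m - 2, by omega⟩
        rw [show k + 2 - 1 = k + 1 by omega, show k + 2 - 2 = k by omega] at h1
        linear_combination -h1
      · simp only [mem_insert, mem_singleton]
        omega

end Gen

theorem ep_pow_val (p : ℕ) [Fact p.Prime] (j : ZMod p) :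
    ep p ^ j.val = ZMod.stdAddChar j := by
  rw [ep, ← Complex.exp_nat_mul, ZMod.stdAddChar_apply, ZMod.toCircle_apply]
  congr 1
  ring

theorem std_ne_one (p : ℕ) [Fact p.Prime] : (ZMod.stdAddChar : AddChar (ZMod p) ℂ) ≠ 1 := by
  intro h
  have h1 := ZMod.isPrimitive_stdAddChar p
  rw [h] at h1
  exact h1 (one_ne_zero : (1 : ZMod p) ≠ 0) (by simp)

theorem klo_eq_TG (p : ℕ) [Fact p.Prime] (E : Type) [Field E] [Finite E] [Algebra (ZMod p) E]
    (a : ZMod p) :
    klo p (ep p) E (algebraMap (ZMod p) E a) =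
      TG (lamK (ZMod.stdAddChar : AddChar (ZMod p) ℂ) a 1) (Module.finrank (ZMod p) E) := by
  classical
  let _ : Fintype E := Fintype.ofFinite E
  rw [TK_eq_sum (F := ZMod p) (E := E), klo, finsum_eq_sum_of_fintype]
  simp_rw [ep_pow_val]
  rw [map_one]
  have h2 : ∀ x : E, (if x = 0 then (0 : ℂ) else ZMod.stdAddChar (Algebra.trace (ZMod p) E
      (algebraMap (ZMod p) E a * x + 1 * x⁻¹))) =
      if x ≠ 0 then ZMod.stdAddChar (Algebra.trace (ZMod p) E
      (algebraMap (ZMod p) E a * x + 1 * x⁻¹)) else 0 := by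
    intro x
    by_cases h0 : x = 0 <;> simp [h0]
  simp_rw [h2]
  rw [← sum_filter]
  refine sum_bij (fun (x : Eˣ) _ => (x : E)) ?_ ?_ ?_ ?_
  · intro x _
    rw [mem_filter]
    exact ⟨mem_univ _, x.ne_zero⟩
  · intro x _ y _ hxy
    exact Units.ext hxy
  · intro x hx
    rw [mem_filter] at hx
    exact ⟨Units.mk0 x hx.2, mem_univ _, rfl⟩
  · intro x _
    rw [one_mul, Units.val_inv_eq_inv_val]

/-- EXT: the Kloosterman sums over the extensions of `ZMod p` -/
theorem ext : S_EXT := by
  intro p hp a θ ha h m hm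
  have hψ := std_ne_one p
  have hpp : p.Prime := Fact.out
  have hp0 : (0 : ℝ) ≤ p := by positivity
  have hs : ((Real.sqrt p : ℝ) : ℂ) * (Real.sqrt p : ℝ) = p := by
    rw [← Complex.ofReal_mul, Real.mul_self_sqrt hp0]
    simp
  -- the base
  have h1 : AG (lamK (ZMod.stdAddChar : AddChar (ZMod p) ℂ) a 1) 1 =
      ((2 * Real.sqrt p * Real.cos θ : ℝ) : ℂ) := by
    rw [← AG_one_gen hψ ha, ← h]
    have h2 := klo_eq_TG p (ZMod p) a
    rw [Module.finrank_self] at h2
    rw [← h2]
    rfl
  -- the two roots
  set α : ℂ := -((Real.sqrt p : ℝ) : ℂ) * Complex.exp (θ * Complex.I) with hα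
  set β : ℂ := -((Real.sqrt p : ℝ) : ℂ) * Complex.exp (-θ * Complex.I) with hβ
  have hsum : α + β = -AG (lamK (ZMod.stdAddChar : AddChar (ZMod p) ℂ) a 1) 1 := by
    rw [h1, hα, hβ]
    push_cast
    rw [Complex.cos]
    ring
  have hprod : α * β = Fintype.card (ZMod p) := by
    rw [hα, hβ, ZMod.card]
    have h3 : Complex.exp (θ * Complex.I) * Complex.exp (-θ * Complex.I) = 1 := by
      rw [← Complex.exp_add]
      have : (θ : ℂ) * Complex.I + -θ * Complex.I = 0 := by ring
      rw [this, Complex.exp_zero]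
    linear_combination (((Real.sqrt p : ℝ) : ℂ) * (Real.sqrt p : ℝ)) * h3 + hs
  have h4 := TG_eigen hψ ha (one_ne_zero) α β hsum hprod m hm
  have hm0 : m ≠ 0 := hm.ne'
  rw [klo_eq_TG p (GaloisField p m) a, GaloisField.finrank p hm0, h4, hα, hβ]
  push_cast
  rw [Complex.cos, mul_pow, mul_pow, ← Complex.exp_nat_mul, ← Complex.exp_nat_mul]
  have e1 : (m : ℂ) * (θ * Complex.I) = m * θ * Complex.I := by ring
  have e2 : (m : ℂ) * (-θ * Complex.I) = -(m * θ) * Complex.I := by ring
  rw [e1, e2, neg_pow]
  obtain ⟨k, rfl⟩ : ∃ k, m = k + 1 := ⟨m - 1, by omega⟩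
  rw [Nat.add_sub_cancel, pow_succ (-1 : ℂ) k]
  ring

end Pool.Agent.H856.KA
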