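import Pool.Agent.H856.KA.Li

/-! # Families of Kloosterman sums over finite fields -/

set_option autoImplicit false

open Polynomial

namespace Pool.Agent.H856.KA

open Pool.Agent.H856.WD

lemma ep_prim (p : ℕ) (hp : p ≠ 0) : IsPrimitiveRoot (ep p) p :=
  Complex.isPrimitiveRoot_exp p hp

/-- an embedding of the algebraic numbers, and the preimages of `e(1/p)` -/
lemma exists_j : ∃ (j : AlgebraicClosure ℚ →+* ℂ) (ζ : ℕ → AlgebraicClosure ℚ),
    ∀ p : ℕ, p.Prime → IsPrimitiveRoot (ζ p) p ∧ j (ζ p) = ep p := by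
  let j : AlgebraicClosure ℚ →ₐ[ℚ] ℂ := IsAlgClosed.lift
  have h : ∀ p : ℕ, ∃ z : AlgebraicClosure ℚ, p.Prime → IsPrimitiveRoot z p ∧ j.toRingHom z = ep p := by
    intro p
    by_cases hp : p.Prime
    · have hne : NeZero (p : AlgebraicClosure ℚ) := ⟨by exact_mod_cast hp.ne_zero⟩
      have hne' : NeZero p := ⟨hp.ne_zero⟩
      obtain ⟨z, hz⟩ := IsAlgClosed.exists_root (cyclotomic p (AlgebraicClosure ℚ))
        (degree_cyclotomic_pos p _ hp.pos).ne'
      have hz' : IsPrimitiveRoot z p := (isRoot_cyclotomic_iff).1 hz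
      have h1 : IsPrimitiveRoot (j.toRingHom z) p := hz'.map_of_injective j.toRingHom.injective
      obtain ⟨k, -, hk⟩ := h1.eq_pow_of_pow_eq_one (ep_prim p hp.ne_zero).pow_eq_one
      refine ⟨z ^ k, fun _ => ?_⟩
      have h2 : j.toRingHom (z ^ k) = ep p := by rw [map_pow, hk]
      refine ⟨?_, h2⟩
      apply IsPrimitiveRoot.of_map_of_injective (f := j.toRingHom) _ j.toRingHom.injective
      rw [h2]
      exact ep_prim p hp.ne_zero
    · exact ⟨0, fun h => absurd h hp⟩
  choose ζ hζ using h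
  exact ⟨j.toRingHom, ζ, hζ⟩

lemma klo_eq {R : Type} [CommRing R] (p : ℕ) (ζ : R) (F : Type) [Field F] [Fintype Fˣ]
    [Algebra (ZMod p) F] (a : F) : klo p ζ F a =
      ∑ x : Fˣ, ζ ^ (Algebra.trace (ZMod p) F (a * (x : F) + ((x⁻¹ : Fˣ) : F))).val :=
  finsum_eq_sum_of_fintype _

lemma klo_map {R R' : Type} [CommRing R] [CommRing R'] (f : R →+* R') (p : ℕ) (ζ : R) (F : Type)
    [Field F] [Finite F] [Algebra (ZMod p) F] (a : F) : f (klo p ζ F a) = klo p (f ζ) F a := by
  have := Fintype.ofFinite Fˣ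
  rw [klo_eq, klo_eq, map_sum]
  refine Finset.sum_congr rfl fun x _ => ?_
  rw [map_pow]

lemma klo_int (p : ℕ) [hp : Fact p.Prime] (ζ : AlgebraicClosure ℚ) (hζ : IsPrimitiveRoot ζ p)
    (F : Type) [Field F] [Finite F] [Algebra (ZMod p) F] (a : F) : IsIntegral ℤ (klo p ζ F a) := by
  have := Fintype.ofFinite Fˣ
  rw [klo_eq]
  exact IsIntegral.sum _ fun x _ => (hζ.isIntegral hp.out.pos).pow _

lemma bound (hA : S_KLA) (hB : S_KLB) (p : ℕ) [hp : Fact p.Prime] (F : Type) [Field F] [Finite F]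
    [Algebra (ZMod p) F] (a : F) (z : ℂ) (ha : a ≠ 0) (hz : IsPrimitiveRoot z p) :
    (klo p z F a).im = 0 ∧ ‖klo p z F a‖ ≤ 2 * Real.sqrt (Nat.card F) := by
  by_cases h2 : p = 2
  · subst h2
    have hz' : z = -1 := hz.eq_neg_one_of_two_right
    subst hz'
    refine ⟨?_, hB F a ha⟩
    have h1 : klo 2 (-1 : ℂ) F a = ((klo 2 (-1 : ℤ) F a : ℤ) : ℂ) := by
      have := klo_map (Int.castRingHom ℂ) 2 (-1) F a
      rw [map_neg, map_one] at this
      exact this.symm
    rw [h1]
    exact Complex.intCast_im _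
  · exact hA p F a z ha hz (fun h => absurd h h2)

/-- for `q = 2` there is only one Kloosterman sum -/
lemma klo_two {R : Type} [CommRing R] (ζ : R) (F : Type) [Field F] [Finite F] [Algebra (ZMod 2) F]
    (a : F) (ha : a ≠ 0) (hc : Nat.card F = 2) : klo 2 ζ F a = 1 := by
  classical
  have := Fintype.ofFinite F
  have hF : ∀ x : F, x ≠ 0 → x = 1 := by
    intro x hx
    by_contra h
    have h1 : ({0, 1, x} : Finset F).card ≤ Fintype.card F := Finset.card_le_univ _
    rw [Finset.card_insert_of_notMem (by simp [hx.symm]),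
      Finset.card_insert_of_notMem (by simpa using Ne.symm h), Finset.card_singleton,
      ← Nat.card_eq_fintype_card, hc] at h1
    omega
  have hU : ∀ x : Fˣ, x = 1 := fun x => Units.ext (hF x x.ne_zero)
  have hchar : CharP F 2 := charP_of_injective_algebraMap (algebraMap (ZMod 2) F).injective 2
  rw [klo_eq, Fintype.sum_eq_single (1 : Fˣ) (fun x hx => absurd (hU x) hx), hF a ha]
  simp only [Units.val_one, mul_one, inv_one]
  rw [CharTwo.add_self_eq_zero, map_zero, ZMod.val_zero, pow_zero]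

theorem fam (hV : S_VAL) (hC : S_CORE) (hA : S_KLA) (hB : S_KLB) (hKC : S_KLC) (hD : S_KLD)
    (X : Type) (P : X → ℕ) [hP : ∀ x, Fact (P x).Prime] (E : ℕ → ℕ) (hE : ∀ p, 0 < E p)
    (F : X → Type) [∀ x, Field (F x)] [∀ x, Finite (F x)] [∀ x, Algebra (ZMod (P x)) (F x)]
    (hcard : ∀ x, Nat.card (F x) = P x ^ E (P x)) (a : ∀ x, F x) (ha : ∀ x, a x ≠ 0)
    (hinj : ∀ x x', P x = P x' → klo (P x) (ep (P x)) (F x) (a x) =
      klo (P x') (ep (P x')) (F x') (a x') → x = x') :
    LinearIndependent ℚ (fun i : Option X => i.elim Real.pi fun x =>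
      Real.arccos ((klo (P x) (ep (P x)) (F x) (a x)).re / (2 * Real.sqrt (Nat.card (F x))))) := by
  classical
  obtain ⟨j, ζ, hζ⟩ := exists_j
  set S : X → AlgebraicClosure ℚ := fun x => klo (P x) (ζ (P x)) (F x) (a x) with hS
  have hjS : ∀ x, j (S x) = klo (P x) (ep (P x)) (F x) (a x) := by
    intro x
    rw [hS]
    simp only
    rw [klo_map, (hζ _ (hP x).out).2]
  rw [linearIndependent_iff']
  intro s g hg
  -- integers
  obtain ⟨D, hD0, hDg⟩ : ∃ D : ℕ, 0 < D ∧ ∀ i ∈ s, ∃ n : ℤ, (n : ℚ) = D * g i := by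
    refine ⟨∏ i ∈ s, (g i).den, Finset.prod_pos fun i _ => (g i).den_pos, fun i hi => ?_⟩
    refine ⟨(g i).num * ∏ i' ∈ s.erase i, ((g i').den : ℤ), ?_⟩
    rw [← Finset.mul_prod_erase s _ hi]
    push_cast
    have h1 : ((g i).den : ℚ) * g i = (g i).num := by
      rw [mul_comm]
      exact Rat.mul_den_eq_num (g i)
    rw [← h1]
    ring
  choose! n hn using hDg
  have hrel : ∑ i ∈ s, (n i : ℝ) * (i.elim Real.pi fun x =>
      Real.arccos ((klo (P x) (ep (P x)) (F x) (a x)).re / (2 * Real.sqrt (Nat.card (F x))))) = 0 := by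
    have h1 : ∀ i ∈ s, (n i : ℝ) * (i.elim Real.pi fun x =>
      Real.arccos ((klo (P x) (ep (P x)) (F x) (a x)).re / (2 * Real.sqrt (Nat.card (F x))))) =
      (D : ℝ) * (g i • (i.elim Real.pi fun x =>
      Real.arccos ((klo (P x) (ep (P x)) (F x) (a x)).re / (2 * Real.sqrt (Nat.card (F x)))))) := by
      intro i hi
      have h2 : (n i : ℝ) = (D : ℝ) * (g i : ℝ) := by
        have := hn i hi
        exact_mod_cast congrArg (fun x : ℚ => (x : ℝ)) this
      rw [h2, Rat.smul_def]
      ring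
    rw [Finset.sum_congr rfl h1, ← Finset.mul_sum, hg, mul_zero]
  set t : Finset X := s.eraseNone with ht
  have hts : ∀ x, x ∈ t ↔ some x ∈ s := fun x => Finset.mem_eraseNone
  let n' : Option X → ℤ := fun i => if i ∈ s then n i else 0
  have hrel2 : ∑ x : t, (n (some x.1) : ℝ) *
      Real.arccos ((j (S x.1)).re / (2 * Real.sqrt ((P x.1 : ℝ) ^ E (P x.1)))) =
      ((-(n' none) : ℤ) : ℝ) * Real.pi := by
    have h1 : ∑ i ∈ s, (n i : ℝ) * (i.elim Real.pi fun x =>
      Real.arccos ((klo (P x) (ep (P x)) (F x) (a x)).re / (2 * Real.sqrt (Nat.card (F x))))) =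
      (n' none : ℝ) * Real.pi + ∑ x ∈ t, (n (some x) : ℝ) *
        Real.arccos ((j (S x)).re / (2 * Real.sqrt ((P x : ℝ) ^ E (P x)))) := by
      have h2 : ∑ x ∈ t, (n (some x) : ℝ) *
        Real.arccos ((j (S x)).re / (2 * Real.sqrt ((P x : ℝ) ^ E (P x)))) =
        ∑ i ∈ s.erase none, (n i : ℝ) * (i.elim Real.pi fun x =>
      Real.arccos ((klo (P x) (ep (P x)) (F x) (a x)).re / (2 * Real.sqrt (Nat.card (F x))))) := by
        refine Finset.sum_bij (fun x _ => some x) ?_ ?_ ?_ ?_
        · intro x hx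
          rw [Finset.mem_erase]
          exact ⟨Option.some_ne_none x, (hts x).1 hx⟩
        · intro x _ y _ hxy
          exact Option.some_injective _ hxy
        · intro i hi
          rw [Finset.mem_erase] at hi
          cases i with
          | none => exact absurd rfl hi.1
          | some x => exact ⟨x, (hts x).2 hi.2, rfl⟩
        · intro x _
          simp only [Option.elim_some]
          rw [hjS x, hcard x]
          push_cast
          rfl
      rw [h2]
      by_cases hnone : none ∈ s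
      · rw [← Finset.add_sum_erase s _ hnone]
        simp only [Option.elim_none, n', if_pos hnone]
      · rw [Finset.erase_eq_of_notMem hnone]
        simp only [n', if_neg hnone]
        rw [Int.cast_zero, zero_mul, zero_add]
    rw [hrel] at h1
    rw [Finset.sum_coe_sort t (fun x => (n (some x) : ℝ) *
      Real.arccos ((j (S x)).re / (2 * Real.sqrt ((P x : ℝ) ^ E (P x)))))]
    push_cast
    linarith
  have hmain := li_abs hV hC t (fun x => P x.1) (fun x => (hP x.1).out) E hE ζ
    (fun p hp => (hζ p hp).1) (fun x => S x.1) j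
    (fun x g' hg' => by
      show g' (klo _ _ _ _) = klo _ _ _ _
      have h1 := klo_map g'.toRingHom (P x.1) (ζ (P x.1)) (F x.1) (a x.1)
      have h2 : g'.toRingHom (ζ (P x.1)) = ζ (P x.1) := hg'
      rw [h2] at h1
      exact h1)
    (fun x φ => by
      have h1 := bound hA hB (P x.1) (F x.1) (a x.1) (φ (ζ (P x.1))) (ha x.1)
        ((hζ _ (hP x.1).out).1.map_of_injective φ.injective)
      rw [hcard x.1] at h1
      push_cast at h1
      show (φ (klo _ _ _ _)).im = 0 ∧ ‖φ (klo _ _ _ _)‖ ≤ _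
      rw [klo_map]
      exact h1)
    (fun x p _ hpx => by
      show ‖iota p (klo _ _ _ _ + 1)‖ < 1
      revert hpx
      intro hpx
      subst hpx
      exact hKC (P x.1) (F x.1) (a x.1) (ζ (P x.1)) (ha x.1) (hζ _ (hP x.1).out).1)
    (fun x => klo_int _ _ (hζ _ (hP x.1).out).1 _ _)
    (fun x x' h1 h2 => by
      apply Subtype.ext
      refine hinj x.1 x'.1 h1 ?_
      rw [← hjS, ← hjS]
      exact congrArg j h2)
    (by
      have key : ∀ (k : ℕ) (hk : Fact k.Prime) (G : Type) [Field G] [Finite G] [Algebra (ZMod k) G]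
          (b : G), b ≠ 0 → k = 2 → ∀ z : AlgebraicClosure ℚ, IsPrimitiveRoot z k →
          (Nat.card G = 2 → klo k z G b = 1) ∧
          (2 < Nat.card G → ∃ l : ℤ, klo k z G b = 4 * (l : AlgebraicClosure ℚ) - 1) := by
        intro k hk G _ _ _ b hb hk2 z hz
        subst hk2
        refine ⟨fun h => klo_two z G b hb h, fun h => ?_⟩
        obtain ⟨l, hl⟩ := hD G b hb h
        refine ⟨l, ?_⟩
        have hz' : z = -1 := hz.eq_neg_one_of_two_right
        have h1 := klo_map (Int.castRingHom (AlgebraicClosure ℚ)) 2 (-1) G b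
        rw [map_neg, map_one, hl] at h1
        rw [hz', ← h1]
        simp
      have hc2 : ∀ x : X, P x = 2 → Nat.card (F x) = 2 ^ E 2 := by
        intro x hx
        rw [hcard x, hx]
      by_cases hE2 : E 2 = 1
      · left
        intro x x' hx hx'
        apply Subtype.ext
        refine hinj x.1 x'.1 (hx.trans hx'.symm) ?_
        rw [← hjS, ← hjS]
        congr 1
        show klo _ _ _ _ = klo _ _ _ _
        rw [(key (P x.1) (hP x.1) (F x.1) (a x.1) (ha x.1) hx _ (hζ _ (hP x.1).out).1).1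
            (by rw [hc2 x.1 hx, hE2, pow_one]),
          (key (P x'.1) (hP x'.1) (F x'.1) (a x'.1) (ha x'.1) hx' _ (hζ _ (hP x'.1).out).1).1
            (by rw [hc2 x'.1 hx', hE2, pow_one])]
      · right
        intro x hx
        refine (key (P x.1) (hP x.1) (F x.1) (a x.1) (ha x.1) hx _ (hζ _ (hP x.1).out).1).2 ?_
        rw [hc2 x.1 hx]
        have h1 : 2 ≤ E 2 := by
          have := hE 2
          omega
        calc 2 < 2 ^ 2 := by norm_num
          _ ≤ 2 ^ E 2 := Nat.pow_le_pow_right (by norm_num) h1)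
    (fun x => n (some x.1)) (-(n' none)) hrel2
  have hsome : ∀ x, some x ∈ s → n (some x) = 0 := fun x hx => hmain ⟨x, (hts x).2 hx⟩
  have hnone : none ∈ s → n none = 0 := by
    intro h0
    have h1 : ∑ x : t, (n (some x.1) : ℝ) *
      Real.arccos ((j (S x.1)).re / (2 * Real.sqrt ((P x.1 : ℝ) ^ E (P x.1)))) = 0 := by
      refine Finset.sum_eq_zero fun x _ => ?_
      rw [hsome x.1 ((hts x.1).1 x.2), Int.cast_zero, zero_mul]
    rw [h1] at hrel2
    have h2 : ((-(n' none) : ℤ) : ℝ) = 0 := by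
      rcases mul_eq_zero.1 hrel2.symm with h3 | h3
      · exact h3
      · exact absurd h3 Real.pi_ne_zero
    have h3 : -(n' none) = 0 := by exact_mod_cast h2
    have h4 : n' none = n none := if_pos h0
    rw [h4] at h3
    omega
  intro i hi
  have h0 : n i = 0 := by
    cases i with
    | none => exact hnone hi
    | some x => exact hsome x hi
  have h1 := hn i hi
  rw [h0, Int.cast_zero] at h1
  rcases mul_eq_zero.1 h1.symm with h2 | h2
  · exfalso
    have : D = 0 := by exact_mod_cast h2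
    omega
  · exact h2

end Pool.Agent.H856.KA
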