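import Pool.Agent.H856.KA.Stm
import Pool.Graph.R_seed8.H498R2.KlWeil

set_option autoImplicit false

open Polynomial

namespace Pool.Agent.H856.KA

open Pool.Agent.H856.WD

/-- the additive character -/
noncomputable def klaChar (p : ℕ) [NeZero p] (F : Type) [Field F] [Algebra (ZMod p) F] (z : ℂ)
    (hz : z ^ p = 1) : AddChar F ℂ :=
  (AddChar.zmodChar p hz).compAddMonoidHom (Algebra.trace (ZMod p) F).toAddMonoidHom

theorem klaChar_apply (p : ℕ) [NeZero p] (F : Type) [Field F] [Algebra (ZMod p) F] (z : ℂ)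
    (hz : z ^ p = 1) (x : F) : klaChar p F z hz x = z ^ (Algebra.trace (ZMod p) F x).val := by
  unfold klaChar
  rw [AddChar.compAddMonoidHom_apply, AddChar.zmodChar_apply]
  rfl

theorem kla : S_KLA := by
  intro p hp F _ _ _ a z ha hz h2
  classical
  have := Fintype.ofFinite F
  have hzp : z ^ p = 1 := hz.pow_eq_one
  have : CharP F p := charP_of_injective_algebraMap (algebraMap (ZMod p) F).injective p
  have : Module.Finite (ZMod p) F := Module.Finite.of_finite
  have : Algebra.IsSeparable (ZMod p) F := inferInstance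
  set ψ : AddChar F ℂ := klaChar p F z hzp with hψ
  have hk : klo p z F a = ∑ x : Fˣ, ψ (a * (x : F) + ((x⁻¹ : Fˣ) : F)) := by
    unfold klo
    rw [finsum_eq_sum_of_fintype]
    refine Finset.sum_congr rfl (fun x _ => ?_)
    rw [hψ, klaChar_apply]
  have hprim : ψ.IsPrimitive := by
    apply AddChar.IsPrimitive.of_ne_one
    intro h
    obtain ⟨x, hx⟩ := Algebra.trace_surjective (ZMod p) F 1
    have h3 : ψ x = 1 := by rw [h]; rfl
    rw [hψ, klaChar_apply, hx] at h3
    have : Fact (1 < p) := ⟨hp.out.one_lt⟩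
    rw [ZMod.val_one, pow_one] at h3
    exact hz.ne_one hp.out.one_lt h3
  constructor
  · rw [hk, ← Complex.conj_eq_iff_im, map_sum]
    have h4 : ∀ x : Fˣ, (starRingEnd ℂ) (ψ (a * (x : F) + ((x⁻¹ : Fˣ) : F))) =
        ψ (a * ((-x : Fˣ) : F) + (((-x)⁻¹ : Fˣ) : F)) := by
      intro x
      rw [← AddChar.map_neg_eq_conj]
      apply congrArg
      rw [inv_neg, Units.val_neg, Units.val_neg]
      ring
    simp only [h4]
    exact Equiv.sum_comp (Equiv.neg Fˣ) (fun x : Fˣ => ψ (a * (x : F) + ((x⁻¹ : Fˣ) : F)))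
  · by_cases hp2 : p = 2
    · have hc := h2 hp2
      have hcu : Fintype.card Fˣ = 1 := by
        rw [Fintype.card_units, ← Nat.card_eq_fintype_card, hc]
      rw [hk]
      refine (norm_sum_le _ _).trans ?_
      have h5 : ∀ x ∈ (Finset.univ : Finset Fˣ), ‖ψ (a * (x : F) + ((x⁻¹ : Fˣ) : F))‖ ≤ 1 := by
        intro x _
        rw [AddChar.norm_apply]
      refine (Finset.sum_le_sum h5).trans ?_
      rw [Finset.sum_const, Finset.card_univ, hcu, hc, one_smul]
      have h6 : (1 : ℝ) ≤ Real.sqrt ((2 : ℕ) : ℝ) := by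
        apply Real.one_le_sqrt.mpr
        norm_num
      linarith
    · have hF : ringChar F ≠ 2 := by
        rw [ringChar.eq F p]
        exact hp2
      have h7 := Pool.Agent.H498R2.Kl.kloosterman_units_le hF hprim ha (one_ne_zero)
      simp only [one_mul] at h7
      rw [hk, Nat.card_eq_fintype_card]
      exact h7

end Pool.Agent.H856.KA
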