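import Pool.Agent.H856.KA.Stm
import Pool.Graph.R_seed8.H498R2.KlWeil
import Pool.Graph.R_seed8.R410.PW.Weil

/-! # Weil's bound for Kloosterman sums over fields of even order -/

set_option autoImplicit false

open Polynomial

namespace Pool.Agent.H856.KA

namespace KLB

open Pool.Agent.H498R2.Kl Pool.Agent.H341R2.Sharp

/-- the curve `w ^ 2 + x w = a x ^ 3 + x` -/
noncomputable def crv {K : Type} [CommRing K] (a : K) : K[X][X] :=
  X ^ 2 + (C X * X - C (C a * X ^ 3 + X))

theorem deg_low {K : Type} [Field K] (a : K) :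
    (C X * X - C (C a * X ^ 3 + X) : K[X][X]).natDegree ≤ 1 := by
  refine (natDegree_sub_le _ _).trans ?_
  rw [natDegree_C, max_le_iff]
  refine ⟨?_, Nat.zero_le _⟩
  refine (natDegree_C_mul_le _ _).trans ?_
  rw [natDegree_X]

theorem deg_low' {K : Type} [Field K] (a : K) :
    (C X * X - C (C a * X ^ 3 + X) : K[X][X]).degree < (2 : ℕ) := by
  refine degree_le_natDegree.trans_lt ?_
  have := deg_low a
  exact_mod_cast (by omega : (C X * X - C (C a * X ^ 3 + X) : K[X][X]).natDegree < 2)

theorem crv_monic {K : Type} [Field K] (a : K) : (crv a).Monic :=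
  monic_X_pow_add (deg_low' a)

theorem crv_natDegree {K : Type} [Field K] (a : K) : (crv a).natDegree = 2 := by
  unfold crv
  rw [natDegree_add_eq_left_of_natDegree_lt, natDegree_X_pow]
  rw [natDegree_X_pow]
  have := deg_low a
  omega

theorem natDegree_rhs {K : Type} [Field K] (a : K) (ha : a ≠ 0) :
    (C a * X ^ 3 + X : K[X]).natDegree = 3 := by
  rw [natDegree_add_eq_left_of_natDegree_lt, natDegree_C_mul_X_pow _ _ ha]
  rw [natDegree_C_mul_X_pow _ _ ha, natDegree_X]
  norm_num

theorem crv_irr {K : Type} [Field K] (a : K) (ha : a ≠ 0) : Irreducible (crv a) := by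
  rw [(crv_monic a).irreducible_iff_roots_eq_zero_of_degree_le_three (by rw [crv_natDegree])
    (by rw [crv_natDegree]; omega), Multiset.eq_zero_iff_forall_notMem]
  intro h hh
  rw [mem_roots (crv_monic a).ne_zero, IsRoot.def] at hh
  unfold crv at hh
  simp only [eval_add, eval_sub, eval_mul, eval_pow, eval_X, eval_C] at hh
  have h1 : h ^ 2 + X * h = C a * X ^ 3 + X := by linear_combination hh
  have h2 := natDegree_rhs a ha
  rw [← h1] at h2
  by_cases hm : h.natDegree ≤ 1
  · have h3 : (h ^ 2 + X * h).natDegree ≤ 2 := by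
      refine (natDegree_add_le _ _).trans (max_le ?_ ?_)
      · rw [natDegree_pow]
        omega
      · refine natDegree_mul_le.trans ?_
        rw [natDegree_X]
        omega
    omega
  · have h4 : (X * h).natDegree = h.natDegree + 1 := by
      rw [natDegree_mul X_ne_zero (by rintro rfl; simp at hm), natDegree_X]
      omega
    rw [natDegree_add_eq_left_of_natDegree_lt, natDegree_pow] at h2
    · omega
    · rw [natDegree_pow, h4]
      omega

theorem crv_coeff {K : Type} [Field K] (a : K) (i : ℕ) : ((crv a).coeff i).natDegree ≤ 3 := by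
  unfold crv
  rw [coeff_add, coeff_sub, coeff_X_pow, coeff_C_mul, coeff_X, coeff_C]
  refine (natDegree_add_le _ _).trans (max_le ?_ ((natDegree_sub_le _ _).trans (max_le ?_ ?_)))
  · split_ifs <;> simp
  · split_ifs
    · rw [mul_one, natDegree_X]
      omega
    · simp
  · split_ifs
    · refine (natDegree_add_le _ _).trans (max_le ?_ ?_)
      · exact (natDegree_C_mul_X_pow_le _ _)
      · rw [natDegree_X]
        omega
    · simp

theorem crv_deriv {K : Type} [Field K] [CharP K 2] (a : K) : derivative (crv a) = C X := by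
  have h2 : (2 : K[X]) = 0 := CharP.cast_eq_zero K[X] 2
  unfold crv
  rw [derivative_add, derivative_X_pow, derivative_sub, derivative_C, derivative_C_mul,
    derivative_X]
  simp [h2]

theorem crv_map {K L : Type} [Field K] [Field L] (f : K →+* L) (a : K) :
    (crv a).map (mapRingHom f) = crv (f a) := by
  unfold crv
  simp

theorem crv_eval {K : Type} [Field K] (a x y : K) :
    evalEval x y (crv a) = y ^ 2 + x * y - (a * x ^ 3 + x) := by
  unfold crv
  simp [evalEval]
  ring

section Count

open Finset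

variable {E : Type} [Field E] [Fintype E] [DecidableEq E] [Algebra (ZMod 2) E]

/-- the Kloosterman sum -/
noncomputable def KS (a : E) : ℂ :=
  ∑ x : E, if x = 0 then 0 else (-1 : ℂ) ^ (Algebra.trace (ZMod 2) E (a * x + x⁻¹)).val

theorem key2 (t : ZMod 2) : ((if t = 0 then 2 else 0 : ℕ) : ℂ) = 1 + (-1 : ℂ) ^ t.val := by
  by_cases h : t = 0
  · subst h
    rw [if_pos rfl, ZMod.val_zero, pow_zero]
    norm_num
  · have h1 : ∀ t : ZMod 2, t ≠ 0 → t.val = 1 := by decide
    rw [if_neg h, h1 t h]
    norm_num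

theorem fiber (a x : E) :
    ((univ.filter fun w : E => w ^ 2 + x * w - (a * x ^ 3 + x) = 0).card : ℂ) =
      1 + if x = 0 then 0 else (-1 : ℂ) ^ (Algebra.trace (ZMod 2) E (a * x + x⁻¹)).val := by
  have hchar : CharP E 2 := charP_of_injective_algebraMap (algebraMap (ZMod 2) E).injective 2
  have h2 : (2 : E) = 0 := by exact_mod_cast CharP.cast_eq_zero E 2
  by_cases hx : x = 0
  · subst hx
    have h : (univ.filter fun w : E => w ^ 2 + 0 * w - (a * 0 ^ 3 + 0) = 0) = {0} := by
      ext w
      simp
    rw [h]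
    simp
  · have h1 : (univ.filter fun w : E => w ^ 2 + x * w - (a * x ^ 3 + x) = 0).card =
        (univ.filter fun z : E => z ^ Fintype.card (ZMod 2) - z = a * x + x⁻¹).card := by
      rw [ZMod.card]
      refine card_bij' (fun w _ => w / x) (fun z _ => x * z) ?_ ?_ ?_ ?_
      · intro w hw
        rw [mem_filter] at hw ⊢
        refine ⟨mem_univ _, ?_⟩
        have h3 := hw.2
        field_simp
        linear_combination h3 - w * x * h2
      · intro z hz
        rw [mem_filter] at hz ⊢
        refine ⟨mem_univ _, ?_⟩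
        have h3 := hz.2
        have h4 : x * x⁻¹ = 1 := mul_inv_cancel₀ hx
        linear_combination x ^ 2 * h3 + x ^ 2 * z * h2 + x * h4
      · intro w _
        field_simp
      · intro z _
        field_simp
    rw [h1, hilbert90, if_neg hx, ZMod.card]
    exact key2 _

theorem count (a : E) : (({z : E × E | evalEval z.1 z.2 (crv a) = 0}.ncard : ℕ) : ℂ) =
    Fintype.card E + KS a := by
  have h1 : {z : E × E | evalEval z.1 z.2 (crv a) = 0}.ncard =
      (univ.filter fun z : E × E => z.2 ^ 2 + z.1 * z.2 - (a * z.1 ^ 3 + z.1) = 0).card := by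
    rw [← Set.ncard_coe_finset]
    congr 1
    ext z
    simp only [Set.mem_ofPred_eq, crv_eval, coe_filter, mem_univ, true_and]
  rw [h1, card_filter, ← univ_product_univ, sum_product]
  simp only [← card_filter]
  push_cast
  simp only [fiber]
  rw [sum_add_distrib, KS]
  simp

theorem KS_bound (a : E) (ha : a ≠ 0) :
    ‖KS a‖ ≤ Pool.Agent.R410.PW.WC 2 3 1 * Real.sqrt (Fintype.card E) := by
  have hchar : CharP E 2 := charP_of_injective_algebraMap (algebraMap (ZMod 2) E).injective 2
  have hirr : Irreducible ((crv a).map (mapRingHom (algebraMap E (AlgebraicClosure E)))) := by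
    rw [crv_map]
    exact crv_irr _ ((_root_.map_ne_zero _).2 ha)
  have h := Pool.Agent.R410.PW.weil (AlgebraicClosure E) (f := crv a) (A := 0) (B := 1) (D := X)
    (crv_monic a) (by rw [crv_natDegree]; omega) (by rw [crv_deriv]; ring) X_ne_zero (δ := 1)
    (by rw [natDegree_X]) (d := 3) (crv_coeff a) hirr
  rw [crv_natDegree, Nat.card_eq_fintype_card] at h
  have h1 : KS a = (((({z : E × E | evalEval z.1 z.2 (crv a) = 0}.ncard : ℕ) : ℝ) -
      (Fintype.card E : ℝ) : ℝ) : ℂ) := by
    push_cast
    rw [count]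
    ring
  rw [h1, Complex.norm_real, Real.norm_eq_abs]
  exact h

end Count

section Final

open Finset

variable {F : Type} [Field F] [Fintype F] [DecidableEq F] [Algebra (ZMod 2) F]

/-- the additive character -/
noncomputable def psi (F : Type) [Field F] [Algebra (ZMod 2) F] : AddChar F ℂ :=
  (AddChar.zmodChar 2 (ζ := (-1 : ℂ)) (by norm_num)).compAddMonoidHom
    (Algebra.trace (ZMod 2) F).toAddMonoidHom

omit [Fintype F] [DecidableEq F] in
theorem psi_apply (x : F) : psi F x = (-1 : ℂ) ^ (Algebra.trace (ZMod 2) F x).val := rfl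

theorem psi_ne : psi F ≠ 1 := by
  intro h
  obtain ⟨x, hx⟩ := Algebra.trace_surjective (ZMod 2) F 1
  have h1 := psi_apply x
  rw [h, hx, AddChar.one_apply, ZMod.val_one, pow_one] at h1
  norm_num at h1

theorem TG_bound (a : F) (ha : a ≠ 0) (m : ℕ) (hm : 1 ≤ m) :
    ‖TG (lamK (psi F) a 1) m‖ ≤ Pool.Agent.R410.PW.WC 2 3 1 * (Real.sqrt (Fintype.card F)) ^ m := by
  classical
  have hchar : CharP F 2 := charP_of_injective_algebraMap (algebraMap (ZMod 2) F).injective 2
  have : NeZero m := ⟨by omega⟩
  let E := FiniteField.Extension F 2 m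
  let _ : Fintype E := Fintype.ofFinite E
  have hfr : Module.finrank F E = m := FiniteField.finrank_extension F 2 m
  have hcard : Fintype.card E = Fintype.card F ^ m := by
    rw [Module.card_eq_pow_finrank (K := F) (V := E), hfr]
  have h2 : Real.sqrt (Fintype.card E) = (Real.sqrt (Fintype.card F)) ^ m := by
    rw [hcard]
    push_cast
    rw [Real.sqrt_eq_iff_mul_self_eq (by positivity) (by positivity), ← mul_pow,
      Real.mul_self_sqrt (by positivity)]
  have h5 := TK_eq_sum (E := E) (psi F) a 1
  rw [hfr] at h5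
  have h6 : TG (lamK (psi F) a 1) m = KS (algebraMap F E a) := by
    rw [h5]
    unfold KS
    apply sum_congr rfl
    intro x _
    split_ifs
    · rfl
    · rw [psi_apply, map_one, one_mul, Algebra.trace_trace]
  rw [h6, ← h2]
  exact KS_bound _ ((_root_.map_ne_zero _).2 ha)

theorem KS_le (a : F) (ha : a ≠ 0) : ‖KS a‖ ≤ 2 * Real.sqrt (Fintype.card F) := by
  have hq0 : 0 < Real.sqrt (Fintype.card F) :=
    Real.sqrt_pos.2 (by exact_mod_cast Fintype.card_pos)
  have hroot : ∀ z : ℂ, (LK (psi F) a 1).eval z = 0 → 1 ≤ Real.sqrt (Fintype.card F) * ‖z‖ := by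
    intro z hz
    exact root_norm (LK (psi F) a 1) (LK_zero psi_ne ha 1) (TG (lamK (psi F) a 1))
      (Real.sqrt (Fintype.card F)) (Pool.Agent.R410.PW.WC 2 3 1) hq0 (by positivity)
      (fun m hm => TG_bound a ha m hm) (LK_HID psi_ne ha 1) z hz
  have h1 := coeff_one_le (LK (psi F) a 1) (LK_zero psi_ne ha 1) _ hq0 hroot 2
    (LK_natDegree psi_ne ha 1)
  have h2 : (LK (psi F) a 1).coeff 1 = KS a := by
    have h3 := LK_HID psi_ne ha 1 1
    rw [Icc_self, sum_singleton, Nat.sub_self, LK_zero psi_ne ha, one_mul, Nat.cast_one,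
      one_mul] at h3
    rw [h3]
    have h4 := TK_eq_sum (F := F) (E := F) (psi F) a 1
    rw [Module.finrank_self] at h4
    rw [h4]
    unfold KS
    apply sum_congr rfl
    intro x _
    split_ifs
    · rfl
    · rw [psi_apply]
      simp
  rw [h2] at h1
  exact_mod_cast h1

end Final

end KLB

theorem klb : S_KLB := by
  classical
  intro F _ _ _ a ha
  let _ : Fintype F := Fintype.ofFinite F
  have h := KLB.KS_le a ha
  have h1 : klo 2 (-1 : ℂ) F a = KLB.KS a := by
    unfold klo KLB.KS
    rw [finsum_eq_sum_of_fintype]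
    have h2 : ∀ x : F, (if x = 0 then (0 : ℂ) else
        (-1 : ℂ) ^ (Algebra.trace (ZMod 2) F (a * x + x⁻¹)).val) =
        if x ≠ 0 then (-1 : ℂ) ^ (Algebra.trace (ZMod 2) F (a * x + x⁻¹)).val else 0 := by
      intro x
      by_cases h0 : x = 0 <;> simp [h0]
    simp_rw [h2]
    rw [← Finset.sum_filter]
    refine Finset.sum_bij (fun (x : Fˣ) _ => (x : F)) ?_ ?_ ?_ ?_
    · intro x _
      rw [Finset.mem_filter]
      exact ⟨Finset.mem_univ _, x.ne_zero⟩
    · intro x _ y _ hxy
      exact Units.ext hxy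
    · intro x hx
      rw [Finset.mem_filter] at hx
      exact ⟨Units.mk0 x hx.2, Finset.mem_univ _, rfl⟩
    · intro x _
      simp
  rw [h1, Nat.card_eq_fintype_card]
  exact h

end Pool.Agent.H856.KA
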