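import Pool.Agent.H856.KA.Stm

/-! # Kloosterman sums are congruent to `-1` (helper139 for helper856) -/

set_option autoImplicit false

namespace Pool.Agent.H856.KA

open Pool.Agent.H856.WD

theorem klc_sum (h : S_VAL) (p : ℕ) [Fact p.Prime] {α : Type} (s : Finset α)
    (f : α → AlgebraicClosure ℚ) (hf : ∀ x ∈ s, ‖iota p (f x)‖ < 1) :
    ‖iota p (∑ x ∈ s, f x)‖ < 1 := by
  classical
  induction s using Finset.induction_on with
  | empty =>
    rw [Finset.sum_empty, map_zero, norm_zero]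
    exact zero_lt_one
  | insert a s ha ih =>
    rw [Finset.sum_insert ha]
    refine ((h p).1 _ _).trans_lt (max_lt (hf a (Finset.mem_insert_self a s)) ?_)
    exact ih fun x hx => hf x (Finset.mem_insert_of_mem hx)

theorem klc (h : S_VAL) : S_KLC := by
  intro p _ F _ _ _ a ζ _ hζ
  classical
  have hp : p.Prime := Fact.out
  have hint : IsIntegral ℤ ζ := hζ.isIntegral hp.pos
  have := Fintype.ofFinite F
  have := Fintype.ofFinite Fˣ
  have hpow : ∀ k : ℕ, ‖iota p (ζ ^ k - 1)‖ < 1 := by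
    intro k
    rw [← mul_geom_sum, map_mul, norm_mul]
    have h1 : ‖iota p (∑ i ∈ Finset.range k, ζ ^ i)‖ ≤ 1 :=
      (h p).2.1 _ (IsIntegral.sum _ fun i _ => hint.pow i)
    have h2 := (h p).2.2.2.2 ζ hζ
    have h3 := norm_nonneg (iota p (ζ - 1))
    have h4 := norm_nonneg (iota p (∑ i ∈ Finset.range k, ζ ^ i))
    nlinarith
  have hq : ‖iota p ((Nat.card F : ℕ) : AlgebraicClosure ℚ)‖ < 1 := by
    have h1 : Nat.card F = Nat.card (ZMod p) ^ Module.finrank (ZMod p) F :=
      Module.natCard_eq_pow_finrank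
    rw [h1, Nat.card_zmod, Nat.cast_pow, map_pow, norm_pow]
    exact pow_lt_one₀ (norm_nonneg _) (h p).2.2.1 Module.finrank_pos.ne'
  have hcard : (Nat.card F : ℕ) = Fintype.card Fˣ + 1 := by
    have h1 : Nat.card F = Nat.card Fˣ + 1 := Nat.card_eq_card_units_add_one (α := F)
    rw [h1, Nat.card_eq_fintype_card]
  have hsum : klo p ζ F a + 1 = ∑ x : Fˣ, (ζ ^ (Algebra.trace (ZMod p) F
      (a * (x : F) + ((x⁻¹ : Fˣ) : F))).val - 1) + ((Nat.card F : ℕ) : AlgebraicClosure ℚ) := by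
    unfold klo
    rw [finsum_eq_sum_of_fintype, Finset.sum_sub_distrib, hcard]
    simp only [Finset.sum_const, Finset.card_univ, nsmul_eq_mul, mul_one]
    push_cast
    ring
  rw [hsum]
  exact ((h p).1 _ _).trans_lt (max_lt (klc_sum h p _ _ fun x _ => hpow _) hq)

end Pool.Agent.H856.KA
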