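import Pool.Agent.H856.KA.Stm

/-! # KA-KLD (helper227): Kloosterman sums over `F_(2^n)`, `n ≥ 2`, are `-1` modulo `4` -/

set_option autoImplicit false

namespace Pool.Agent.H856.KA

namespace KLDN

theorem even_card {F : Type} [Field F] [Fintype F] [DecidableEq F] [Algebra (ZMod 2) F] (a : Fˣ)
    (S : Finset Fˣ) (hS : ∀ x : Fˣ, x ∈ S ↔
      Algebra.trace (ZMod 2) F ((a : F) * (x : F) + ((x⁻¹ : Fˣ) : F)) = 1) :
    ∃ m : ℕ, S.card = 2 * m := by
  have h2 : (2 : F) = 0 := by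
    have h : algebraMap (ZMod 2) F (1 + 1) = 1 + 1 := by rw [map_add, map_one]
    have h' : (1 + 1 : ZMod 2) = 0 := by decide
    rw [h', map_zero] at h
    rw [← one_add_one_eq_two]
    exact h.symm
  have h1 : ∑ x ∈ S, (1 : ZMod 2) = 0 := by
    refine Finset.sum_involution (fun x _ => (a * x)⁻¹) (fun _ _ => by decide) ?_ ?_ ?_
    · intro x hx _ hfix
      rw [hS] at hx
      have h3 : a * x = x⁻¹ := by
        rw [← inv_inj, hfix, inv_inv]
      have h4 : (a : F) * (x : F) = ((x⁻¹ : Fˣ) : F) := by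
        rw [← h3, Units.val_mul]
      have h5 : (a : F) * (x : F) + ((x⁻¹ : Fˣ) : F) = 0 := by
        rw [h4, ← two_mul, h2, zero_mul]
      rw [h5, map_zero] at hx
      exact absurd hx (by decide)
    · intro x hx
      rw [hS] at hx ⊢
      have h3 : (a : F) * (((a * x)⁻¹ : Fˣ) : F) + ((((a * x)⁻¹)⁻¹ : Fˣ) : F) =
          (a : F) * (x : F) + ((x⁻¹ : Fˣ) : F) := by
        rw [inv_inv, mul_inv, Units.val_mul, Units.val_mul, ← mul_assoc, Units.mul_inv, one_mul,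
          add_comm]
      rw [h3]
      exact hx
    · intro x _
      show (a * (a * x)⁻¹)⁻¹ = x
      rw [mul_inv_rev, inv_inv, mul_comm a x, mul_inv_cancel_right]
  rw [Finset.sum_const, nsmul_eq_mul, mul_one] at h1
  have h3 : 2 ∣ S.card := (ZMod.natCast_eq_zero_iff _ _).1 h1
  exact h3

end KLDN

open Classical in
/-- **KLD** -/
theorem kld : S_KLD := by
  intro F _ _ _ a ha hq
  have : Fintype F := Fintype.ofFinite F
  obtain ⟨a', ha'⟩ : ∃ a' : Fˣ, (a' : F) = a := ⟨Units.mk0 a ha, rfl⟩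
  obtain ⟨S, hS⟩ : ∃ S : Finset Fˣ, S = Finset.univ.filter (fun x : Fˣ =>
    Algebra.trace (ZMod 2) F ((a' : F) * (x : F) + ((x⁻¹ : Fˣ) : F)) = 1) := ⟨_, rfl⟩
  obtain ⟨m, hm⟩ := KLDN.even_card a' S (fun x => by
    rw [hS, Finset.mem_filter]
    exact ⟨fun h => h.2, fun h => ⟨Finset.mem_univ _, h⟩⟩)
  have h1 : klo 2 (-1 : ℤ) F a = (Fintype.card Fˣ : ℤ) - 2 * S.card := by
    unfold klo
    rw [finsum_eq_sum_of_fintype, ← ha']
    have h2 : ∀ t : ZMod 2, (-1 : ℤ) ^ t.val = 1 - 2 * (if t = 1 then 1 else 0) := by decide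
    rw [Finset.sum_congr rfl fun x _ => h2 _, Finset.sum_sub_distrib, ← Finset.mul_sum,
      Finset.sum_boole, ← hS, Finset.sum_const, Finset.card_univ]
    norm_num
  have h3 : Nat.card F = 2 ^ Module.finrank (ZMod 2) F := by
    rw [Module.natCard_eq_pow_finrank (K := ZMod 2), Nat.card_zmod]
  have h4 : 2 ≤ Module.finrank (ZMod 2) F := by
    by_contra h
    rw [h3] at hq
    have h5 : Module.finrank (ZMod 2) F ≤ 1 := by omega
    have h6 := Nat.pow_le_pow_right (show 0 < 2 by norm_num) h5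
    omega
  obtain ⟨n, hn⟩ := Nat.exists_eq_add_of_le h4
  have h5 : Fintype.card Fˣ + 1 = 4 * 2 ^ n := by
    rw [Fintype.card_units, ← Nat.card_eq_fintype_card, h3, hn, pow_add]
    have : 1 ≤ 2 ^ n := Nat.one_le_two_pow
    omega
  refine ⟨2 ^ n - m, ?_⟩
  have h6 : (Fintype.card Fˣ : ℤ) + 1 = 4 * 2 ^ n := by exact_mod_cast h5
  rw [h1, hm]
  push_cast
  linarith

end Pool.Agent.H856.KA
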