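import Pool.Agent.H856.KA.Stm

/-! # The Kloosterman sums modulo `p` are different -/

set_option autoImplicit false

open Polynomial Finset

namespace Pool.Agent.H856.KA

namespace KLEL

variable {p : ℕ} [hp : Fact p.Prime]

/-- the number of solutions of `a x + 1 / x = j` -/
def NN (a j : ZMod p) : ℕ :=
  ((univ : Finset (ZMod p)ˣ).filter
    (fun x : (ZMod p)ˣ => a * (x : ZMod p) + ((x⁻¹ : (ZMod p)ˣ) : ZMod p) = j)).card

theorem sum_NN {R : Type} [CommRing R] (a : ZMod p) (f : ZMod p → R) :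
    ∑ x : (ZMod p)ˣ, f (a * (x : ZMod p) + ((x⁻¹ : (ZMod p)ˣ) : ZMod p)) =
      ∑ j : ZMod p, (NN a j : R) * f j := by
  rw [← Finset.sum_fiberwise (s := (univ : Finset (ZMod p)ˣ))
    (g := fun x : (ZMod p)ˣ => a * (x : ZMod p) + ((x⁻¹ : (ZMod p)ˣ) : ZMod p))]
  refine sum_congr rfl fun j _ => ?_
  have h : ∀ x ∈ (univ : Finset (ZMod p)ˣ).filter
      (fun x : (ZMod p)ˣ => a * (x : ZMod p) + ((x⁻¹ : (ZMod p)ˣ) : ZMod p) = j),
      f (a * (x : ZMod p) + ((x⁻¹ : (ZMod p)ˣ) : ZMod p)) = f j := by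
    intro x hx
    rw [(mem_filter.1 hx).2]
  rw [sum_congr rfl h, sum_const, nsmul_eq_mul]
  rfl

theorem klo_eq {K : Type} [CommRing K] (ζ : K) (a : ZMod p) :
    klo p ζ (ZMod p) a = ∑ j : ZMod p, (NN a j : K) * ζ ^ j.val := by
  unfold klo
  rw [finsum_eq_sum_of_fintype]
  simp only [Algebra.trace_self_apply]
  exact sum_NN a (fun j => ζ ^ j.val)

theorem sum_val {R : Type} [CommRing R] (f : ℕ → R) :
    ∑ j : ZMod p, f j.val = ∑ i ∈ range p, f i := by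
  refine Finset.sum_bij (fun j _ => j.val) ?_ ?_ ?_ ?_
  · intro j _
    exact mem_range.2 (ZMod.val_lt j)
  · intro i _ j _ h
    exact ZMod.val_injective p h
  · intro i hi
    exact ⟨(i : ZMod p), mem_univ _, ZMod.val_natCast_of_lt (mem_range.1 hi)⟩
  · intro j _
    rfl

theorem lin {K : Type} [Field K] [CharZero K] {ζ : K} (hζ : IsPrimitiveRoot ζ p)
    (c : ZMod p → ℚ) (h : ∑ j : ZMod p, (c j : K) * ζ ^ j.val = 0) (j : ZMod p) :
    c j = c (-1) := by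
  have h0 : ∑ j : ZMod p, ζ ^ j.val = 0 := by
    rw [sum_val (fun i => ζ ^ i)]
    exact hζ.geom_sum_eq_zero hp.out.one_lt
  obtain ⟨P, hP⟩ : ∃ P : ℚ[X], P = ∑ j : ZMod p, C (c j - c (-1)) * X ^ j.val := ⟨_, rfl⟩
  have hm1 : ∀ i : ZMod p, p - 1 ≤ i.val → i = -1 := by
    intro i hi
    have h1 := ZMod.val_lt i
    have h2 : i.val = p - 1 := by omega
    have h3 : ((i.val : ℕ) : ZMod p) = i := ZMod.natCast_zmod_val i
    rw [← h3, h2, Nat.cast_sub hp.out.one_lt.le, ZMod.natCast_self]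
    simp
  have hco : ∀ m : ℕ, P.coeff m = ∑ i : ZMod p, if m = i.val then c i - c (-1) else 0 := by
    intro m
    rw [hP, finsetSum_coeff]
    exact sum_congr rfl fun i _ => by rw [coeff_C_mul_X_pow]
  have hdeg : P.degree < ((p - 1 : ℕ) : WithBot ℕ) := by
    rw [degree_lt_iff_coeff_zero]
    intro m hm
    rw [hco]
    refine sum_eq_zero fun i _ => ?_
    split_ifs with h1
    · rw [h1] at hm
      rw [hm1 i hm, sub_self]
    · rfl
  have hae : aeval ζ P = 0 := by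
    rw [hP, map_sum]
    have e : ∀ j : ZMod p, aeval ζ (C (c j - c (-1)) * X ^ j.val) =
        (c j : K) * ζ ^ j.val - (c (-1) : K) * ζ ^ j.val := by
      intro j
      rw [map_mul, aeval_C, map_pow, aeval_X, eq_ratCast (algebraMap ℚ K)]
      push_cast
      ring
    rw [sum_congr rfl fun j _ => e j, sum_sub_distrib, h, ← mul_sum, h0, mul_zero, sub_zero]
  have hdvd : cyclotomic p ℚ ∣ P := by
    rw [cyclotomic_eq_minpoly_rat hζ hp.out.pos]
    exact minpoly.dvd ℚ ζ hae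
  have hP0 : P = 0 := by
    apply eq_zero_of_dvd_of_degree_lt hdvd
    rw [degree_cyclotomic, Nat.totient_prime hp.out]
    exact hdeg
  have h1 := hco j.val
  rw [hP0, coeff_zero, sum_eq_single j] at h1
  · rw [if_pos rfl] at h1
    linarith
  · intro i _ hij
    rw [if_neg]
    intro h2
    exact hij (ZMod.val_injective p h2).symm
  · intro h2
    exact absurd (mem_univ _) h2

theorem NN_eq {K : Type} [Field K] [CharZero K] {ζ : K} (hζ : IsPrimitiveRoot ζ p)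
    {a b : ZMod p} (h : klo p ζ (ZMod p) a = klo p ζ (ZMod p) b) (j : ZMod p) :
    NN a j = NN b j := by
  have h1 : ∑ j : ZMod p, ((((NN a j : ℕ) : ℚ) - ((NN b j : ℕ) : ℚ) : ℚ) : K) * ζ ^ j.val = 0 := by
    rw [klo_eq, klo_eq] at h
    have e : ∀ j : ZMod p, ((((NN a j : ℕ) : ℚ) - ((NN b j : ℕ) : ℚ) : ℚ) : K) * ζ ^ j.val =
        (NN a j : K) * ζ ^ j.val - (NN b j : K) * ζ ^ j.val := by
      intro j
      push_cast
      ring
    rw [sum_congr rfl fun j _ => e j, sum_sub_distrib, h, sub_self]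
  have h2 : ∀ j, ((NN a j : ℕ) : ℚ) - ((NN b j : ℕ) : ℚ) =
      ((NN a (-1) : ℕ) : ℚ) - ((NN b (-1) : ℕ) : ℚ) :=
    fun j => lin hζ (fun j => ((NN a j : ℕ) : ℚ) - ((NN b j : ℕ) : ℚ)) h1 j
  have h3 := sum_NN (R := ℚ) a (fun _ => 1)
  have h4 := sum_NN (R := ℚ) b (fun _ => 1)
  have h5 : ∑ j : ZMod p, (((NN a j : ℕ) : ℚ) - ((NN b j : ℕ) : ℚ)) = 0 := by
    rw [sum_sub_distrib]
    simp only [mul_one] at h3 h4
    rw [← h3, ← h4, sub_self]
  rw [sum_congr rfl fun j _ => h2 j, sum_const, nsmul_eq_mul, card_univ, ZMod.card] at h5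
  have hp0 : (p : ℚ) ≠ 0 := by exact_mod_cast hp.out.ne_zero
  have h6 := (mul_eq_zero.1 h5).resolve_left hp0
  have h7 := h2 j
  rw [h6] at h7
  have h8 : ((NN a j : ℕ) : ℚ) = ((NN b j : ℕ) : ℚ) := by linarith
  exact_mod_cast h8

theorem s2 (a : ZMod p) :
    ∑ x : (ZMod p)ˣ, (a * (x : ZMod p) + ((x⁻¹ : (ZMod p)ˣ) : ZMod p)) ^ 2 =
      (a ^ 2 + 1) * (∑ x : (ZMod p)ˣ, (x : ZMod p) ^ 2) - 2 * a := by
  have e : ∀ x : (ZMod p)ˣ, (a * (x : ZMod p) + ((x⁻¹ : (ZMod p)ˣ) : ZMod p)) ^ 2 =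
      a ^ 2 * (x : ZMod p) ^ 2 + (2 * a + ((x⁻¹ : (ZMod p)ˣ) : ZMod p) ^ 2) := by
    intro x
    have h : (x : ZMod p) * ((x⁻¹ : (ZMod p)ˣ) : ZMod p) = 1 := Units.mul_inv x
    linear_combination 2 * a * h
  rw [sum_congr rfl fun x _ => e x, sum_add_distrib, sum_add_distrib, ← mul_sum, sum_const,
    card_univ, ZMod.card_units_eq_totient, Nat.totient_prime hp.out, nsmul_eq_mul,
    Nat.cast_sub hp.out.one_lt.le, ZMod.natCast_self]
  have h1 : ∑ x : (ZMod p)ˣ, ((x⁻¹ : (ZMod p)ˣ) : ZMod p) ^ 2 =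
      ∑ x : (ZMod p)ˣ, (x : ZMod p) ^ 2 :=
    Equiv.sum_comp (Equiv.inv (ZMod p)ˣ) (fun x => (x : ZMod p) ^ 2)
  rw [h1]
  push_cast
  ring

theorem z2 : ∀ a b : ZMod 2, a ≠ 0 → b ≠ 0 → a = b := by decide

theorem z3 : ∀ a b : ZMod 3, a ≠ 0 → b ≠ 0 →
    (a ^ 2 + 1) * (-1) - 2 * a = (b ^ 2 + 1) * (-1) - 2 * b → a = b := by decide

end KLEL

open KLEL in
theorem kle : S_KLE := by
  intro p hp K _ _ ζ a b hζ ha hb h
  have hN := NN_eq hζ h
  have h1 := sum_NN (R := ZMod p) a (fun j => j ^ 2)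
  have h2 := sum_NN (R := ZMod p) b (fun j => j ^ 2)
  simp only [hN] at h1
  rw [← h2, s2, s2] at h1
  clear h2 hN h hζ
  have hs := FiniteField.sum_pow_units (ZMod p) 2
  rw [ZMod.card] at hs
  rw [hs] at h1
  clear hs
  rcases Nat.lt_or_ge p 4 with h4 | h4
  · have h2 := hp.out.two_le
    interval_cases p
    · exact z2 a b ha hb
    · rw [if_pos (by norm_num)] at h1
      exact z3 a b ha hb h1
  · rw [if_neg (by
      intro h5
      have := Nat.le_of_dvd (by norm_num) h5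
      omega)] at h1
    have h5 : (2 : ZMod p) * (a - b) = 0 := by linear_combination -h1
    have h6 : (2 : ZMod p) ≠ 0 := by
      intro h7
      have h8 : ((2 : ℕ) : ZMod p) = 0 := by exact_mod_cast h7
      rw [ZMod.natCast_eq_zero_iff] at h8
      have := Nat.le_of_dvd (by norm_num) h8
      omega
    exact sub_eq_zero.1 ((mul_eq_zero.1 h5).resolve_left h6)

end Pool.Agent.H856.KA
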