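import Pool.Agent.H856.KA.Stm

set_option autoImplicit false

open MeasureTheory Filter Topology Set

namespace Pool.Agent.H856.KA
namespace KWL

variable {r : ℕ}

/-- the orbit on the torus -/
noncomputable def pt (θ : Fin r → ℝ) (m : ℕ) : UnitAddTorus (Fin r) :=
  fun i => (((m : ℝ) * ((θ i + Real.pi) / (2 * Real.pi)) + 1 / 2 : ℝ) : UnitAddCircle)

/-- the averages -/
noncomputable def av (θ : Fin r → ℝ) (M : ℕ) (g : C(UnitAddTorus (Fin r), ℂ)) : ℂ :=
  (∑ m ∈ Finset.Icc 1 M, g (pt θ m)) / M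

/-- the mean -/
noncomputable def mn (g : C(UnitAddTorus (Fin r), ℂ)) : ℂ :=
  ∫ t in Icc (0 : Fin r → ℝ) 1, g (fun i => ((t i : ℝ) : UnitAddCircle))

theorem avg_geo (c ω : ℂ) (h1 : ω ≠ 1) (hn : ‖ω‖ = 1) :
    Tendsto (fun M : ℕ => (∑ m ∈ Finset.Icc 1 M, c * ω ^ m) / (M : ℂ)) atTop (nhds 0) := by
  have hω : ω - 1 ≠ 0 := sub_ne_zero.2 h1
  have key : ∀ M : ℕ, ∑ m ∈ Finset.Icc 1 M, c * ω ^ m = c * (ω * ((ω ^ M - 1) / (ω - 1))) := by
    intro M
    have e : Finset.Icc 1 M = Finset.Ico (0 + 1) (M + 1) := by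
      ext x
      simp only [Finset.mem_Icc, Finset.mem_Ico]
      omega
    rw [← geom_sum_eq h1, Finset.mul_sum, Finset.mul_sum, e,
      ← Finset.sum_Ico_add' (fun m => c * ω ^ m) 0 M 1, ← Finset.range_eq_Ico]
    exact Finset.sum_congr rfl fun x _ => by rw [pow_succ']
  have hb : ∀ M : ℕ, ‖(∑ m ∈ Finset.Icc 1 M, c * ω ^ m) / (M : ℂ)‖ ≤ (‖c‖ * (2 / ‖ω - 1‖)) / M := by
    intro M
    rw [norm_div, Complex.norm_natCast, key, norm_mul, norm_mul, hn, one_mul, norm_div]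
    have h2 : ‖ω ^ M - 1‖ ≤ 2 := by
      calc ‖ω ^ M - 1‖ ≤ ‖ω ^ M‖ + ‖(1 : ℂ)‖ := norm_sub_le _ _
        _ = 2 := by rw [norm_pow, hn, one_pow, norm_one]; norm_num
    gcongr
  refine squeeze_zero_norm hb ?_
  exact tendsto_const_nhds.div_atTop tendsto_natCast_atTop_atTop

/-- the frequency -/
noncomputable def om (θ : Fin r → ℝ) (n : Fin r → ℤ) : ℂ :=
  Complex.exp (((∑ i, (n i : ℝ) * (θ i + Real.pi) : ℝ) : ℂ) * Complex.I)

theorem char_pt (θ : Fin r → ℝ) (n : Fin r → ℤ) (m : ℕ) :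
    UnitAddTorus.mFourier n (pt θ m) =
      Complex.exp (((∑ i, (n i : ℝ) * Real.pi : ℝ) : ℂ) * Complex.I) * om θ n ^ m := by
  have h0 : (Real.pi : ℂ) ≠ 0 := by exact_mod_cast Real.pi_ne_zero
  simp only [UnitAddTorus.mFourier, ContinuousMap.coe_mk, pt, om]
  rw [← Complex.exp_nat_mul, ← Complex.exp_add]
  simp only [fourier_coe_apply]
  rw [← Complex.exp_sum]
  congr 1
  push_cast
  rw [Finset.sum_mul, Finset.sum_mul, Finset.mul_sum, ← Finset.sum_add_distrib]
  refine Finset.sum_congr rfl fun i _ => ?_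
  field_simp
  ring

theorem om_norm (θ : Fin r → ℝ) (n : Fin r → ℤ) : ‖om θ n‖ = 1 := by
  rw [om, Complex.norm_exp_ofReal_mul_I]

theorem om_ne (θ : Fin r → ℝ)
    (h : ∀ (n : Fin r → ℤ) (m : ℤ), ∑ i, (n i : ℝ) * θ i = m * Real.pi → (∀ i, n i = 0) ∧ m = 0)
    (n : Fin r → ℤ) (hn : n ≠ 0) : om θ n ≠ 1 := by
  intro h1
  rw [om, Complex.exp_eq_one_iff] at h1
  obtain ⟨k, hk⟩ := h1
  have h2 : (((∑ i, (n i : ℝ) * (θ i + Real.pi) : ℝ) : ℂ)) = ((k * (2 * Real.pi) : ℝ) : ℂ) := by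
    have := mul_right_cancel₀ Complex.I_ne_zero (hk.trans (by ring :
      (k : ℂ) * (2 * (Real.pi : ℂ) * Complex.I) = (k * (2 * Real.pi)) * Complex.I))
    rw [this]
    push_cast
    ring
  have h3 : ∑ i, (n i : ℝ) * (θ i + Real.pi) = k * (2 * Real.pi) := by exact_mod_cast h2
  have h4 : ∑ i, (n i : ℝ) * θ i = ((2 * k - ∑ i, n i : ℤ) : ℝ) * Real.pi := by
    simp only [mul_add, Finset.sum_add_distrib, ← Finset.sum_mul] at h3
    push_cast
    linarith
  exact hn (funext (h n _ h4).1)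

theorem av_char (θ : Fin r → ℝ)
    (h : ∀ (n : Fin r → ℤ) (m : ℤ), ∑ i, (n i : ℝ) * θ i = m * Real.pi → (∀ i, n i = 0) ∧ m = 0)
    (n : Fin r → ℤ) (hn : n ≠ 0) :
    Tendsto (fun M => av θ M (UnitAddTorus.mFourier n)) atTop (nhds 0) := by
  have := avg_geo (Complex.exp (((∑ i, (n i : ℝ) * Real.pi : ℝ) : ℂ) * Complex.I)) (om θ n)
    (om_ne θ h n hn) (om_norm θ n)
  refine this.congr fun M => ?_
  rw [av]
  congr 1
  exact Finset.sum_congr rfl fun m _ => (char_pt θ n m).symm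

theorem av_one (θ : Fin r → ℝ) :
    Tendsto (fun M => av θ M (UnitAddTorus.mFourier 0)) atTop (nhds 1) := by
  refine tendsto_const_nhds.congr' ?_
  filter_upwards [eventually_ge_atTop 1] with M hM
  rw [av, UnitAddTorus.mFourier_zero]
  simp only [ContinuousMap.one_apply, Finset.sum_const, Nat.card_Icc, add_tsub_cancel_right,
    nsmul_eq_mul, mul_one]
  rw [div_self]
  exact_mod_cast (by omega : M ≠ 0)

theorem int_char (k : ℤ) (hk : k ≠ 0) :
    ∫ t in Icc (0 : ℝ) 1, fourier k (t : UnitAddCircle) = 0 := by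
  rw [integral_Icc_eq_integral_Ioc, ← intervalIntegral.integral_of_le zero_le_one]
  simp only [fourier_coe_apply]
  have h0 : (2 * Real.pi * Complex.I * k : ℂ) ≠ 0 := by
    have h0 : (Real.pi : ℂ) ≠ 0 := by exact_mod_cast Real.pi_ne_zero
    have h1 : (k : ℂ) ≠ 0 := by exact_mod_cast hk
    simp [h0, h1]
  have : ∀ x : ℝ, Complex.exp (2 * Real.pi * Complex.I * k * x / (1 : ℝ)) =
      Complex.exp ((2 * Real.pi * Complex.I * k) * x) := by
    intro x
    congr 1
    simp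
  simp only [this]
  rw [integral_exp_mul_complex h0]
  rw [Complex.ofReal_one, Complex.ofReal_zero, mul_one, mul_zero, Complex.exp_zero]
  rw [show (2 * Real.pi * Complex.I * k : ℂ) = k * (2 * Real.pi * Complex.I) by ring]
  rw [Complex.exp_int_mul_two_pi_mul_I, sub_self, zero_div]

theorem rest_eq : (volume : Measure (Fin r → ℝ)).restrict (Icc 0 1) =
    Measure.pi (fun _ : Fin r => (volume : Measure ℝ).restrict (Icc 0 1)) := by
  rw [← Set.pi_univ_Icc, volume_pi, Measure.restrict_pi_pi]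
  rfl

theorem mn_char (n : Fin r → ℤ) (hn : n ≠ 0) : mn (UnitAddTorus.mFourier n) = 0 := by
  have : ∃ i, n i ≠ 0 := by
    by_contra hcon
    push Not at hcon
    exact hn (funext hcon)
  obtain ⟨i, hi⟩ := this
  rw [mn, rest_eq]
  simp only [UnitAddTorus.mFourier, ContinuousMap.coe_mk]
  rw [integral_fintype_prod_eq_prod (𝕜 := ℂ) (fun (i : Fin r) (t : ℝ) => fourier (n i) (t : UnitAddCircle))]
  exact Finset.prod_eq_zero (Finset.mem_univ i) (int_char _ hi)

theorem mn_one : mn (UnitAddTorus.mFourier (0 : Fin r → ℤ)) = 1 := by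
  rw [mn, UnitAddTorus.mFourier_zero]
  simp only [ContinuousMap.one_apply]
  rw [setIntegral_const, measureReal_def, Real.volume_Icc_pi]
  simp

theorem coe_cont : Continuous (fun t : Fin r → ℝ => (fun i => ((t i : ℝ) : UnitAddCircle) : UnitAddTorus (Fin r))) := by
  refine continuous_pi fun i => ?_
  exact (AddCircle.continuous_mk' 1).comp (continuous_apply i)

theorem mn_int (g : C(UnitAddTorus (Fin r), ℂ)) :
    IntegrableOn (fun t : Fin r → ℝ => g (fun i => ((t i : ℝ) : UnitAddCircle))) (Icc 0 1) :=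
  (g.continuous.comp coe_cont).continuousOn.integrableOn_compact isCompact_Icc

theorem mn_add (g g' : C(UnitAddTorus (Fin r), ℂ)) : mn (g + g') = mn g + mn g' := by
  rw [mn, mn, mn, ← integral_add (mn_int g) (mn_int g')]
  rfl

theorem mn_smul (c : ℂ) (g : C(UnitAddTorus (Fin r), ℂ)) : mn (c • g) = c * mn g := by
  rw [mn, mn, ← integral_const_mul]
  rfl

theorem av_add (θ : Fin r → ℝ) (M : ℕ) (g g' : C(UnitAddTorus (Fin r), ℂ)) :
    av θ M (g + g') = av θ M g + av θ M g' := by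
  rw [av, av, av, ← add_div, ← Finset.sum_add_distrib]
  rfl

theorem av_smul (θ : Fin r → ℝ) (M : ℕ) (c : ℂ) (g : C(UnitAddTorus (Fin r), ℂ)) :
    av θ M (c • g) = c * av θ M g := by
  rw [av, av, ← mul_div_assoc, Finset.mul_sum]
  rfl

theorem av_norm (θ : Fin r → ℝ) (M : ℕ) (g : C(UnitAddTorus (Fin r), ℂ)) : ‖av θ M g‖ ≤ ‖g‖ := by
  rw [av, norm_div, Complex.norm_natCast]
  have h1 : ‖∑ m ∈ Finset.Icc 1 M, g (pt θ m)‖ ≤ M * ‖g‖ := by
    refine (norm_sum_le _ _).trans ?_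
    refine (Finset.sum_le_sum fun m _ => g.norm_coe_le_norm _).trans ?_
    simp
  rcases Nat.eq_zero_or_pos M with rfl | hM
  · simp
  · have hM' : (0 : ℝ) < M := by exact_mod_cast hM
    rw [div_le_iff₀ hM']
    linarith

theorem mn_norm (g : C(UnitAddTorus (Fin r), ℂ)) : ‖mn g‖ ≤ ‖g‖ := by
  rw [mn]
  have := norm_setIntegral_le_of_norm_le_const (μ := (volume : Measure (Fin r → ℝ))) (s := Icc 0 1)
    (f := fun t : Fin r → ℝ => g (fun i => ((t i : ℝ) : UnitAddCircle))) (C := ‖g‖)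
    isCompact_Icc.measure_lt_top (fun t _ => g.norm_coe_le_norm _)
  refine this.trans ?_
  rw [measureReal_def, Real.volume_Icc_pi]
  simp

/-- the functions for which the averages converge to the mean -/
noncomputable def GG (θ : Fin r → ℝ) : Submodule ℂ C(UnitAddTorus (Fin r), ℂ) where
  carrier := {g | Tendsto (fun M => av θ M g) atTop (nhds (mn g))}
  add_mem' := by
    intro g g' h h'
    have := Tendsto.add h h'
    simp only [← av_add, ← mn_add] at this
    exact this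
  zero_mem' := by
    show Tendsto (fun M => av θ M 0) atTop (nhds (mn 0))
    have h1 : ∀ M, av θ M 0 = 0 := by
      intro M
      simp [av]
    have h2 : mn (0 : C(UnitAddTorus (Fin r), ℂ)) = 0 := by
      simp [mn]
    simp only [h1, h2]
    exact tendsto_const_nhds
  smul_mem' := by
    intro c g h
    have := Tendsto.const_mul c h
    simp only [← av_smul, ← mn_smul] at this
    exact this

theorem GG_top (θ : Fin r → ℝ)
    (h : ∀ (n : Fin r → ℤ) (m : ℤ), ∑ i, (n i : ℝ) * θ i = m * Real.pi → (∀ i, n i = 0) ∧ m = 0)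
    (g : C(UnitAddTorus (Fin r), ℂ)) : g ∈ GG θ := by
  have h1 : Submodule.span ℂ (range (UnitAddTorus.mFourier (d := Fin r))) ≤ GG θ := by
    rw [Submodule.span_le]
    rintro _ ⟨n, rfl⟩
    by_cases hn : n = 0
    · subst hn
      show Tendsto _ _ (nhds (mn _))
      rw [mn_one]
      exact av_one θ
    · show Tendsto _ _ (nhds (mn _))
      rw [mn_char n hn]
      exact av_char θ h n hn
  have h2 : g ∈ (Submodule.span ℂ (range (UnitAddTorus.mFourier (d := Fin r)))).topologicalClosure := by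
    rw [UnitAddTorus.span_mFourier_closure_eq_top]
    trivial
  rw [← SetLike.mem_coe, Submodule.topologicalClosure_coe, Metric.mem_closure_iff] at h2
  show Tendsto (fun M => av θ M g) atTop (nhds (mn g))
  rw [Metric.tendsto_atTop]
  intro ε hε
  obtain ⟨g', hg', hd⟩ := h2 (ε / 3) (by positivity)
  have h3 : Tendsto (fun M => av θ M g') atTop (nhds (mn g')) := h1 hg'
  rw [Metric.tendsto_atTop] at h3
  obtain ⟨N, hN⟩ := h3 (ε / 3) (by positivity)
  refine ⟨N, fun M hM => ?_⟩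
  have h4 := hN M hM
  rw [dist_eq_norm] at h4 hd ⊢
  have e1 : av θ M g = av θ M (g - g') + av θ M g' := by
    rw [← av_add, sub_add_cancel]
  have e2 : mn g = mn (g - g') + mn g' := by
    rw [← mn_add, sub_add_cancel]
  have h5 := av_norm θ M (g - g')
  have h6 := mn_norm (g - g')
  rw [e1, e2]
  calc ‖av θ M (g - g') + av θ M g' - (mn (g - g') + mn g')‖
      = ‖av θ M (g - g') + (av θ M g' - mn g') - mn (g - g')‖ := by
        congr 1
        ring
    _ ≤ ‖av θ M (g - g') + (av θ M g' - mn g')‖ + ‖mn (g - g')‖ := norm_sub_le _ _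
    _ ≤ ‖av θ M (g - g')‖ + ‖av θ M g' - mn g'‖ + ‖mn (g - g')‖ := by
        gcongr
        exact norm_add_le _ _
    _ < ε := by linarith

/-- the function on the torus -/
noncomputable def gf (f : (Fin r → ℝ) → ℝ) (hf : Continuous f) : C(UnitAddTorus (Fin r), ℂ) where
  toFun x := ((f (fun i => 2 * (fourier 1 (x i) : ℂ).re) : ℝ) : ℂ)
  continuous_toFun := by fun_prop

theorem fr (x : ℝ) : (fourier 1 (x : UnitAddCircle) : ℂ).re = Real.cos (2 * Real.pi * x) := by
  rw [fourier_coe_apply]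
  have : (2 * Real.pi * Complex.I * ((1 : ℤ) : ℂ) * x / ((1 : ℝ) : ℂ) : ℂ) =
      ((2 * Real.pi * x : ℝ) : ℂ) * Complex.I := by
    push_cast
    ring
  rw [this, Complex.exp_ofReal_mul_I_re]

theorem gf_pt (f : (Fin r → ℝ) → ℝ) (hf : Continuous f) (θ : Fin r → ℝ) (m : ℕ) (hm : 1 ≤ m) :
    gf f hf (pt θ m) = ((f (fun i => (-1 : ℝ) ^ (m - 1) * (2 * Real.cos (m * θ i))) : ℝ) : ℂ) := by
  simp only [gf, ContinuousMap.coe_mk, pt, fr]
  congr 2
  funext i
  have h0 := Real.pi_ne_zero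
  have e : 2 * Real.pi * ((m : ℝ) * ((θ i + Real.pi) / (2 * Real.pi)) + 1 / 2) =
      m * θ i + ((m + 1 : ℕ) : ℝ) * Real.pi := by
    push_cast
    field_simp
    ring
  rw [e, Real.cos_add_nat_mul_pi]
  obtain ⟨k, rfl⟩ : ∃ k, m = k + 1 := ⟨m - 1, by omega⟩
  rw [Nat.add_sub_cancel, pow_succ, pow_succ]
  ring

end KWL

open KWL

theorem kw : S_KW := by
  intro r θ h f hf
  have h1 := GG_top θ h (gf f hf)
  have h2 : Tendsto (fun M => av θ M (gf f hf)) atTop (nhds (mn (gf f hf))) := h1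
  have e1 : mn (gf f hf) =
      ((∫ t in Set.Icc (0 : Fin r → ℝ) 1, f (fun i => 2 * Real.cos (2 * Real.pi * t i)) : ℝ) : ℂ) := by
    rw [mn, ← integral_complex_ofReal]
    simp only [gf, ContinuousMap.coe_mk, fr]
  have e2 : ∀ M : ℕ, av θ M (gf f hf) = (((∑ m ∈ Finset.Icc 1 M,
        f (fun i => (-1 : ℝ) ^ (m - 1) * (2 * Real.cos (m * θ i)))) / (M : ℝ) : ℝ) : ℂ) := by
    intro M
    rw [av]
    push_cast
    congr 1
    exact Finset.sum_congr rfl fun m hm => gf_pt f hf θ m (Finset.mem_Icc.1 hm).1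
  rw [e1] at h2
  simp only [e2] at h2
  have h3 := (Complex.continuous_re.tendsto _).comp h2
  simpa only [Function.comp_def, Complex.ofReal_re] using h3

end Pool.Agent.H856.KA
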