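import Pool.Agent.H856.KA.Stm

/-! # VAL: basic properties of the absolute value -/

set_option autoImplicit false

namespace Pool.Agent.H856.KA

open Pool.Agent.H856.WD

section
variable (p : ℕ) [hp : Fact p.Prime]

theorem VAL_max (a b : PadicAlgCl p) : ‖a + b‖ ≤ max ‖a‖ ‖b‖ := PadicAlgCl.isNonarchimedean p a b

theorem VAL_int {a : PadicAlgCl p} (h : IsIntegral ℤ a) : ‖a‖ ≤ 1 := by
  have h1 : IsIntegral (Valued.v : Valuation (PadicAlgCl p) NNReal).integer a := h.tower_top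
  have h2 : a ∈ (Valued.v : Valuation (PadicAlgCl p) NNReal).integer :=
    (Valuation.integer.integers (Valued.v : Valuation (PadicAlgCl p) NNReal)).mem_of_integral h1
  rw [Valuation.mem_integer_iff, ← NNReal.coe_le_coe, PadicAlgCl.valuation_coe] at h2
  exact h2

theorem VAL_iint {x : AlgebraicClosure ℚ} (h : IsIntegral ℤ x) : ‖iota p x‖ ≤ 1 :=
  VAL_int p (h.map ((iota p).restrictScalars ℤ))

theorem VAL_nat (n : ℕ) : ‖iota p (n : AlgebraicClosure ℚ)‖ = ‖(n : ℚ_[p])‖ := by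
  rw [map_natCast, ← PadicAlgCl.norm_extends, map_natCast]

theorem VAL_zeta (ζ : AlgebraicClosure ℚ) (hζ : IsPrimitiveRoot ζ p) : ‖iota p (ζ - 1)‖ < 1 := by
  have hi : IsIntegral ℤ ζ := hζ.isIntegral hp.out.pos
  let u : integralClosure ℤ (AlgebraicClosure ℚ) := ⟨ζ - 1, hi.sub isIntegral_one⟩
  obtain ⟨r, hr⟩ := exists_add_pow_prime_eq hp.out u 1
  have h1 := congrArg (algebraMap (integralClosure ℤ (AlgebraicClosure ℚ)) (AlgebraicClosure ℚ)) hr
  have h2 : algebraMap (integralClosure ℤ (AlgebraicClosure ℚ)) (AlgebraicClosure ℚ) u = ζ - 1 :=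
    rfl
  rw [map_pow, map_add, map_add, map_add, map_mul, map_mul, map_mul, map_one, map_natCast, map_pow,
    map_pow, map_one, h2, sub_add_cancel, hζ.pow_eq_one, one_pow, mul_one] at h1
  set r' : AlgebraicClosure ℚ := algebraMap (integralClosure ℤ (AlgebraicClosure ℚ))
    (AlgebraicClosure ℚ) r with hr'
  have hr1 : ‖iota p r'‖ ≤ 1 := VAL_iint p r.2
  have hu1 : ‖iota p (ζ - 1)‖ ≤ 1 := VAL_iint p (hi.sub isIntegral_one)
  have h3 : (ζ - 1) ^ p = -((p : AlgebraicClosure ℚ) * (ζ - 1) * r') := by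
    linear_combination -h1
  have h4 := congrArg (fun x => ‖iota p x‖) h3
  simp only [map_pow, map_neg, map_mul, norm_neg, norm_mul, norm_pow] at h4
  rw [VAL_nat p p] at h4
  have h5 : ‖(p : ℚ_[p])‖ < 1 := Padic.norm_p_lt_one
  by_contra h6
  have h7 : ‖iota p (ζ - 1)‖ = 1 := le_antisymm hu1 (not_lt.1 h6)
  rw [h7, one_pow, mul_one] at h4
  have h8 : ‖(p : ℚ_[p])‖ * ‖iota p r'‖ < 1 :=
    lt_of_le_of_lt (mul_le_of_le_one_right (norm_nonneg _) hr1) h5
  rw [← h4] at h8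
  exact lt_irrefl _ h8

end

theorem val : S_VAL := by
  intro p hp
  refine ⟨fun x y => ?_, fun x hx => VAL_iint p hx, ?_, fun l hl hlp => ?_, fun ζ hζ =>
    VAL_zeta p ζ hζ⟩
  · rw [map_add]
    exact VAL_max p _ _
  · rw [VAL_nat p p]
    exact Padic.norm_p_lt_one
  · rw [VAL_nat p l, Padic.norm_natCast_eq_one_iff]
    exact (Nat.coprime_primes hp.out hl).2 (Ne.symm hlp)

end Pool.Agent.H856.KA
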