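import Pool.Agent.H856.KA.Fam
import Pool.Agent.H856.KA.Core
import Pool.Agent.H856.KA.Val
import Pool.Agent.H856.KA.C1
import Pool.Agent.H856.KA.C2
import Pool.Agent.H856.KA.C3
import Pool.Agent.H856.KA.Kla
import Pool.Agent.H856.KA.Klb
import Pool.Agent.H856.KA.Klc
import Pool.Agent.H856.KA.Kld
import Pool.Agent.H856.KA.Kle
import Pool.Agent.H856.KA.Ext
import Pool.Agent.H856.KA.Kw

/-! # Kloosterman sums as sums of cosines -/

set_option autoImplicit false

open Polynomial

namespace Pool.Agent.H856.KA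

open Pool.Agent.H856.WD

/-- The Kloosterman sum over a finite field `F` of characteristic `p`: the sum of
`cos (2 π Tr (a x + 1 / x) / p)` over the nonzero elements `x` of `F`, where `Tr` is the trace to the
prime field. -/
noncomputable def kloosterman (p : ℕ) (F : Type) [Field F] [Algebra (ZMod p) F] (a : F) : ℝ :=
  ∑ᶠ x : Fˣ, Real.cos (2 * Real.pi *
    (((Algebra.trace (ZMod p) F (a * (x : F) + ((x⁻¹ : Fˣ) : F))).val : ℕ) : ℝ) / (p : ℝ))

/-- The Kloosterman sum `S(a, 1; p)`, for a residue `a` modulo `p`. -/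
noncomputable def S1 (p : ℕ) (a : ZMod p) : ℝ :=
  ∑ x ∈ Finset.Ico 1 p, Real.cos (2 * Real.pi *
    (((a * (x : ZMod p) + (x : ZMod p)⁻¹).val : ℕ) : ℝ) / (p : ℝ))

/-- The angle `θ_p(a)` in `[0, π]` with `S(a, 1; p) = 2 √p cos θ_p(a)`, for a residue `a` modulo `p`. -/
noncomputable def theta (p : ℕ) (a : ZMod p) : ℝ := Real.arccos (S1 p a / (2 * Real.sqrt (p : ℝ)))

/-- The set of the values of the Kloosterman sums over the field with `p ^ n` elements. -/
def Values (p : ℕ) [Fact p.Prime] (n : ℕ) : Set ℝ :=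
  {s | ∃ a : GaloisField p n, a ≠ 0 ∧ kloosterman p (GaloisField p n) a = s}

instance primesFact (p : Nat.Primes) : Fact (p : ℕ).Prime := ⟨p.2⟩

/-- The pairs of a prime `p` and a residue modulo `p`, different from zero. -/
abbrev Pairs : Type := Σ p : Nat.Primes, (ZMod p)ˣ

/-- The pairs of a prime `p` and a value of the Kloosterman sums over the field with `p ^ e p`
elements. -/
abbrev ValuePairs (e : ℕ → ℕ) : Type := Σ p : Nat.Primes, Values p (e p)

/-- The family which consists of `π` and of the angles `θ_p(a)`. -/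
noncomputable def angles (i : Option Pairs) : ℝ := i.elim Real.pi fun x => theta x.1 x.2

/-- The family which consists of `π` and of the angles of the values of the Kloosterman sums over the
fields with `p ^ e p` elements: `s = 2 √(p ^ e p) cos (angle)`. -/
noncomputable def valueAngles (e : ℕ → ℕ) (i : Option (ValuePairs e)) : ℝ :=
  i.elim Real.pi fun x => Real.arccos ((x.2 : ℝ) / (2 * Real.sqrt ((x.1 : ℝ) ^ e x.1)))

/-- The normalised Kloosterman sum over the field with `p ^ m` elements, with the argument `a` in the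
prime field: the sum divided by `p ^ (m / 2)`. -/
noncomputable def normalisedSum (p : ℕ) [Fact p.Prime] (a : ZMod p) (m : ℕ) : ℝ :=
  kloosterman p (GaloisField p m) (algebraMap (ZMod p) (GaloisField p m) a) / Real.sqrt p ^ m

/-- The normalised Kloosterman sum over the extension of degree `m`, for a pair `(p, a)`. -/
noncomputable def normalised (x : Pairs) (m : ℕ) : ℝ := normalisedSum x.1 x.2 m

/-- For the pairs `x 1, …, x r` the vectors of the normalised Kloosterman sums over the extensions of
degree `m = 1, 2, 3, …` are equidistributed for the law of `(2 cos 2 π t_i)`, with independent uniform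
`t_i` in `[0, 1]`: the means of all continuous functions converge. -/
def Equidistributed {r : ℕ} (x : Fin r → Pairs) : Prop :=
  ∀ f : (Fin r → ℝ) → ℝ, Continuous f →
    Filter.Tendsto (fun M : ℕ => (∑ m ∈ Finset.Icc 1 M, f (fun i => normalised (x i) m)) / (M : ℝ))
      Filter.atTop
      (nhds (∫ t in Set.Icc (0 : Fin r → ℝ) 1, f (fun i => 2 * Real.cos (2 * Real.pi * t i))))

lemma ep_pow_re (p k : ℕ) : (ep p ^ k).re = Real.cos (2 * Real.pi * (k : ℝ) / (p : ℝ)) := by
  rw [ep, ← Complex.exp_nat_mul]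
  have h1 : (k : ℂ) * (2 * Real.pi * Complex.I / p) =
      ((2 * Real.pi * (k : ℝ) / (p : ℝ) : ℝ) : ℂ) * Complex.I := by
    push_cast
    ring
  rw [h1, Complex.exp_ofReal_mul_I_re]

lemma klo_re (p : ℕ) (F : Type) [Field F] [Finite F] [Algebra (ZMod p) F] (a : F) :
    (klo p (ep p) F a).re = kloosterman p F a := by
  have := Fintype.ofFinite Fˣ
  rw [klo_eq, Complex.re_sum, kloosterman, finsum_eq_sum_of_fintype]
  refine Finset.sum_congr rfl fun x _ => ?_
  rw [ep_pow_re]

lemma sum_eq (p : ℕ) [hp : Fact p.Prime] (a : ZMod p) :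
    S1 p a = kloosterman p (ZMod p) a := by
  classical
  rw [S1, kloosterman, finsum_eq_sum_of_fintype]
  symm
  refine Finset.sum_bij (fun (x : (ZMod p)ˣ) _ => (x : ZMod p).val) ?_ ?_ ?_ ?_
  · intro x _
    rw [Finset.mem_Ico]
    refine ⟨?_, ZMod.val_lt _⟩
    rw [Nat.one_le_iff_ne_zero, ne_eq, ZMod.val_eq_zero]
    exact x.ne_zero
  · intro x _ y _ h
    exact Units.ext (ZMod.val_injective p h)
  · intro n hn
    rw [Finset.mem_Ico] at hn
    have h1 : (n : ZMod p) ≠ 0 := by
      intro h
      rw [ZMod.natCast_eq_zero_iff] at h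
      exact absurd (Nat.le_of_dvd (by omega) h) (by omega)
    exact ⟨Units.mk0 _ h1, Finset.mem_univ _, ZMod.val_cast_of_lt hn.2⟩
  · intro x _
    rw [ZMod.natCast_zmod_val, Units.val_inv_eq_inv_val, Algebra.trace_self_apply]

lemma theta_eq (p : ℕ) [hp : Fact p.Prime] (a : ZMod p) :
    theta p a = Real.arccos (kloosterman p (ZMod p) a / (2 * Real.sqrt p)) := by
  rw [theta, sum_eq]

lemma klo_cos (p : ℕ) [hp : Fact p.Prime] (a : ZMod p) (ha : a ≠ 0) :
    klo p (ep p) (ZMod p) a = ((2 * Real.sqrt p * Real.cos (theta p a) : ℝ) : ℂ) := by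
  obtain ⟨h1, h2⟩ := bound kla klb p (ZMod p) a (ep p) ha (ep_prim p hp.out.ne_zero)
  rw [Nat.card_zmod] at h2
  have h3 : klo p (ep p) (ZMod p) a = ((kloosterman p (ZMod p) a : ℝ) : ℂ) := by
    apply Complex.ext
    · rw [klo_re, Complex.ofReal_re]
    · rw [h1, Complex.ofReal_im]
  rw [h3, Complex.norm_real, Real.norm_eq_abs] at h2
  have hs : 0 < 2 * Real.sqrt (p : ℝ) :=
    mul_pos two_pos (Real.sqrt_pos.2 (by exact_mod_cast hp.out.pos))
  have h4 : |kloosterman p (ZMod p) a / (2 * Real.sqrt p)| ≤ 1 := by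
    rw [abs_div, abs_of_pos hs, div_le_one hs]
    exact h2
  rw [abs_le] at h4
  rw [h3, theta_eq, Real.cos_arccos h4.1 h4.2, mul_div_cancel₀ _ hs.ne']

theorem lin_prime : LinearIndependent ℚ angles := by
  have hP : ∀ x : (Σ p : Nat.Primes, (ZMod p)ˣ), Fact (x.1 : ℕ).Prime := fun x => ⟨x.1.2⟩
  have h := fam val (core val (c1 val) c2 c3) kla klb (klc val) kld
    (Σ p : Nat.Primes, (ZMod p)ˣ) (fun x => x.1) (fun _ => 1) (fun _ => one_pos)
    (fun x => ZMod x.1) (fun x => by rw [Nat.card_zmod, pow_one]) (fun x => x.2)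
    (fun x => x.2.ne_zero) (by
      rintro ⟨⟨p, hp⟩, a⟩ ⟨⟨p', hp'⟩, a'⟩ h1 h2
      simp only at h1 h2
      subst h1
      have : Fact p.Prime := ⟨hp⟩
      have h3 := kle p ℂ (ep p) a a' (ep_prim p hp.ne_zero) a.ne_zero a'.ne_zero h2
      rw [Units.ext h3])
  have e1 : angles = (fun i : Option Pairs => i.elim Real.pi fun x =>
      Real.arccos ((klo x.1 (ep x.1) (ZMod x.1) x.2).re /
        (2 * Real.sqrt (Nat.card (ZMod x.1))))) := by
    funext i
    cases i with
    | none => rfl
    | some x =>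
      show theta x.1 x.2 = Real.arccos ((klo x.1 (ep x.1) (ZMod x.1) x.2).re /
        (2 * Real.sqrt (Nat.card (ZMod x.1))))
      rw [theta_eq, klo_re, Nat.card_zmod]
  rw [e1]
  exact h

theorem lin_all (e : ℕ → ℕ) (he : ∀ p, 0 < e p) : LinearIndependent ℚ (valueAngles e) := by
  have hcard : ∀ x : (Σ p : Nat.Primes, Values p (e p)),
      Nat.card (GaloisField x.1 (e x.1)) = (x.1 : ℕ) ^ e x.1 :=
    fun x => GaloisField.card _ _ (he _).ne'
  have h := fam val (core val (c1 val) c2 c3) kla klb (klc val) kld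
    (Σ p : Nat.Primes, Values p (e p)) (fun x => x.1) e he
    (fun x => GaloisField x.1 (e x.1)) hcard (fun x => x.2.2.choose)
    (fun x => x.2.2.choose_spec.1) (by
      rintro ⟨⟨p, hp⟩, s⟩ ⟨⟨p', hp'⟩, s'⟩ h1 h2
      simp only at h1 h2
      subst h1
      have h3 := congrArg Complex.re h2
      rw [klo_re, klo_re] at h3
      have h4 := s.2.choose_spec.2
      have h5 := s'.2.choose_spec.2
      have h6 : (s : ℝ) = s' := h4.symm.trans (h3.trans h5)
      rw [Subtype.ext h6])
  have e1 : valueAngles e = (fun i : Option (ValuePairs e) => i.elim Real.pi fun x =>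
      Real.arccos ((klo x.1 (ep x.1) (GaloisField x.1 (e x.1)) x.2.2.choose).re /
        (2 * Real.sqrt (Nat.card (GaloisField x.1 (e x.1)))))) := by
    funext i
    cases i with
    | none => rfl
    | some x =>
      show Real.arccos ((x.2 : ℝ) / (2 * Real.sqrt ((x.1 : ℝ) ^ e x.1))) =
        Real.arccos ((klo x.1 (ep x.1) (GaloisField x.1 (e x.1)) x.2.2.choose).re /
        (2 * Real.sqrt (Nat.card (GaloisField x.1 (e x.1)))))
      rw [klo_re, x.2.2.choose_spec.2, hcard x, Nat.cast_pow]
  rw [e1]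
  exact h

theorem equi (r : ℕ) (x : Fin r → Pairs) (hx : Function.Injective x) : Equidistributed x := by
  intro f hf
  have hlin : LinearIndependent ℚ (fun i : Option (Fin r) => i.elim Real.pi fun i =>
      theta (x i).1 (x i).2) := by
    have h := lin_prime.comp (Option.map x) (Option.map_injective hx)
    have e1 : (fun i : Option (Fin r) => i.elim Real.pi fun i => theta (x i).1 (x i).2) =
        angles ∘ Option.map x := by
      funext i
      cases i <;> rfl
    rw [e1]
    exact h
  rw [Fintype.linearIndependent_iff] at hlin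
  have h := kw r (fun i => theta (x i).1 (x i).2) (by
    intro n m hnm
    have h1 := hlin (fun i => i.elim (-(m : ℚ)) fun i => (n i : ℚ)) (by
      rw [Fintype.sum_option]
      simp only [Option.elim_none, Option.elim_some, Rat.smul_def]
      push_cast
      rw [hnm]
      ring)
    refine ⟨fun i => ?_, ?_⟩
    · have h2 := h1 (some i)
      simp only [Option.elim_some] at h2
      exact_mod_cast h2
    · have h2 := h1 none
      simp only [Option.elim_none] at h2
      have h3 : (m : ℚ) = 0 := by linarith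
      exact_mod_cast h3) f hf
  convert h using 2 with M
  congr 1
  refine Finset.sum_congr rfl fun m hm => ?_
  have hm1 := (Finset.mem_Icc.1 hm).1
  congr 1
  funext i
  have hp : Fact ((x i).1 : ℕ).Prime := ⟨(x i).1.2⟩
  have h2 := ext (x i).1 (x i).2 (theta (x i).1 (x i).2) (x i).2.ne_zero
    (klo_cos (x i).1 (x i).2 (x i).2.ne_zero) m hm1
  have h3 := congrArg Complex.re h2
  rw [klo_re, Complex.ofReal_re] at h3
  show kloosterman (x i).1 (GaloisField (x i).1 m) (algebraMap (ZMod (x i).1) _ (x i).2) /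
    Real.sqrt (x i).1 ^ m = _
  rw [h3]
  have hs : Real.sqrt ((x i).1 : ℕ) ^ m ≠ 0 :=
    pow_ne_zero _ (Real.sqrt_pos.2 (by exact_mod_cast (x i).1.2.pos)).ne'
  field_simp

end Pool.Agent.H856.KA
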