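import Pool.Agent.H856.KA.Stm

/-! # The independence of the angles, from the independence for one prime -/

set_option autoImplicit false

open Polynomial

namespace Pool.Agent.H856.KA

open Pool.Agent.H856.WD

/-- the two roots, the first of which is a unit -/
lemma exists_uw (hV : S_VAL) (p : ℕ) [hp : Fact p.Prime] (e : ℕ)
    (S : AlgebraicClosure ℚ) (hint : IsIntegral ℤ S) (hcong : ‖iota p (S + 1)‖ < 1)
    (hreal : ∀ φ : AlgebraicClosure ℚ →+* ℂ, (φ S).im = 0 ∧ ‖φ S‖ ≤ 2 * Real.sqrt ((p : ℝ) ^ e)) :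
    ∃ u w : AlgebraicClosure ℚ, u + w = S ∧ u * w = (p : AlgebraicClosure ℚ) ^ e ∧
      IsIntegral ℤ u ∧ IsIntegral ℤ w ∧
      (∀ φ : AlgebraicClosure ℚ →+* ℂ, ‖φ u‖ ^ 2 = (p : ℝ) ^ e) ∧ ‖iota p u‖ = 1 := by
  obtain ⟨vadd, vint, vp, vl, vz⟩ := hV p
  have hp0 : (p : AlgebraicClosure ℚ) ≠ 0 := by exact_mod_cast hp.out.ne_zero
  -- integrality of both roots
  have hI : ∀ x y : AlgebraicClosure ℚ, x + y = S → x * y = (p : AlgebraicClosure ℚ) ^ e →
      IsIntegral ℤ x := by
    intro x y hxy hxy'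
    have h1 : IsIntegral (integralClosure ℤ (AlgebraicClosure ℚ)) x := by
      refine ⟨X ^ 2 - C (⟨S, hint⟩ : integralClosure ℤ (AlgebraicClosure ℚ)) * X +
        C (((p ^ e : ℕ) : integralClosure ℤ (AlgebraicClosure ℚ))), ?_, ?_⟩
      · monicity!
      · simp only [eval₂_add, eval₂_sub, eval₂_mul, eval₂_pow, eval₂_X, eval₂_C]
        have e1 : (algebraMap (integralClosure ℤ (AlgebraicClosure ℚ)) (AlgebraicClosure ℚ))
          ⟨S, hint⟩ = x + y := hxy.symm
        have e2 : (algebraMap (integralClosure ℤ (AlgebraicClosure ℚ)) (AlgebraicClosure ℚ))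
            ((p ^ e : ℕ) : integralClosure ℤ (AlgebraicClosure ℚ)) = x * y := by
          rw [hxy', map_natCast]
          push_cast
          rfl
        rw [e1, e2]
        ring
    exact isIntegral_trans x h1
  -- absolute values
  have hA : ∀ x y : AlgebraicClosure ℚ, x + y = S → x * y = (p : AlgebraicClosure ℚ) ^ e →
      ∀ φ : AlgebraicClosure ℚ →+* ℂ, ‖φ x‖ ^ 2 = (p : ℝ) ^ e := by
    intro x y hxy hxy' φ
    obtain ⟨h1, h2⟩ := hreal φ
    set q : ℝ := (p : ℝ) ^ e with hq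
    have hq0 : 0 < q := pow_pos (by exact_mod_cast hp.out.pos) e
    have h3 : φ x * φ y = (q : ℂ) := by
      rw [← map_mul, hxy', map_pow, map_natCast, hq]
      push_cast
      rfl
    have h4 : φ x + φ y = φ S := by rw [← map_add, hxy]
    set s : ℝ := (φ S).re with hs
    have h5 : φ S = (s : ℂ) := by
      apply Complex.ext
      · simp [hs]
      · simpa using h1
    have h6 : s ^ 2 ≤ 4 * q := by
      rw [h5, Complex.norm_real, Real.norm_eq_abs] at h2
      have h7 : |s| ^ 2 ≤ (2 * Real.sqrt q) ^ 2 := by gcongr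
      rw [sq_abs, mul_pow, Real.sq_sqrt hq0.le] at h7
      linarith
    -- the real and imaginary parts
    have hy : φ y = (s : ℂ) - φ x := by rw [← h5, ← h4]; ring
    rw [hy] at h3
    have h7 := congrArg Complex.re h3
    have h8 := congrArg Complex.im h3
    simp only [Complex.mul_re, Complex.mul_im, Complex.sub_re, Complex.sub_im, Complex.ofReal_re,
      Complex.ofReal_im] at h7 h8
    rw [← Complex.normSq_eq_norm_sq, Complex.normSq_apply]
    set r := (φ x).re
    set i := (φ x).im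
    -- h7 : r * (s - r) - i * (0 - i) = q, h8 : r * (0 - i) + i * (s - r) = 0
    have h9 : i * (s - 2 * r) = 0 := by linarith
    rcases mul_eq_zero.1 h9 with h10 | h10
    · rw [h10] at h7 ⊢
      have h11 : (s - 2 * r) ^ 2 ≤ 0 := by nlinarith
      have h12 : s - 2 * r = 0 := by
        have := sq_nonneg (s - 2 * r)
        exact pow_eq_zero_iff two_ne_zero |>.1 (le_antisymm h11 this)
      nlinarith
    · have h11 : s = 2 * r := by linarith
      rw [h11] at h7
      nlinarith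
  obtain ⟨u, hu⟩ : ∃ u : AlgebraicClosure ℚ, u ^ 2 - S * u + (p : AlgebraicClosure ℚ) ^ e = 0 := by
    have h1 : (X ^ 2 - C S * X + C ((p : AlgebraicClosure ℚ) ^ e) : (AlgebraicClosure ℚ)[X]).degree ≠ 0 := by
      have : (X ^ 2 - C S * X + C ((p : AlgebraicClosure ℚ) ^ e) : (AlgebraicClosure ℚ)[X]).degree = 2 := by
        compute_degree!
      rw [this]
      norm_num
    obtain ⟨u, hu⟩ := IsAlgClosed.exists_root _ h1
    refine ⟨u, ?_⟩
    rw [IsRoot, eval_add, eval_sub, eval_mul, eval_pow, eval_X, eval_C, eval_C] at hu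
    exact hu
  have hadd : u + (S - u) = S := by ring
  have hmul : u * (S - u) = (p : AlgebraicClosure ℚ) ^ e := by linear_combination -hu
  have hadd' : (S - u) + u = S := by ring
  have hmul' : (S - u) * u = (p : AlgebraicClosure ℚ) ^ e := by rw [mul_comm]; exact hmul
  have n1 := vint _ (hI u _ hadd hmul)
  have n2 := vint _ (hI _ u hadd' hmul')
  -- one of them is a unit
  have hS1 : ¬ (‖iota p u‖ < 1 ∧ ‖iota p (S - u)‖ < 1) := by
    rintro ⟨h1, h2⟩
    have h3 : ‖iota p (1 : AlgebraicClosure ℚ)‖ < 1 := by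
      have e1 : (1 : AlgebraicClosure ℚ) = (S + 1) + (-u + -(S - u)) := by ring
      have hneg : ∀ x, ‖iota p (-x)‖ = ‖iota p x‖ := by
        intro x
        rw [map_neg, norm_neg]
      rw [e1]
      refine (vadd _ _).trans_lt (max_lt hcong ((vadd _ _).trans_lt (max_lt ?_ ?_)))
      · rw [hneg]; exact h1
      · rw [hneg]; exact h2
    rw [map_one, norm_one] at h3
    exact lt_irrefl _ h3
  rcases lt_or_eq_of_le n1 with h1 | h1
  · rcases lt_or_eq_of_le n2 with h2 | h2
    · exact absurd ⟨h1, h2⟩ hS1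
    · exact ⟨S - u, u, hadd', hmul', hI _ _ hadd' hmul', hI _ _ hadd hmul,
        hA _ _ hadd' hmul', h2⟩
  · exact ⟨u, S - u, hadd, hmul, hI _ _ hadd hmul, hI _ _ hadd' hmul', hA _ _ hadd hmul, h1⟩

/-- the quotient of the roots and the angle -/
lemma angle_uw (q : ℝ) (hq : 0 < q) (x y : ℂ) (s : ℝ) (hs : x + y = s) (hm : x * y = q)
    (h4 : s ^ 2 ≤ 4 * q) :
    x / y = Complex.exp (2 * Complex.I * (Real.arccos (s / (2 * Real.sqrt q)) : ℝ)) ∨
    x / y = (Complex.exp (2 * Complex.I * (Real.arccos (s / (2 * Real.sqrt q)) : ℝ)))⁻¹ := by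
  set θ := Real.arccos (s / (2 * Real.sqrt q)) with hθ
  have hsq : 0 < Real.sqrt q := Real.sqrt_pos.2 hq
  have hab : |s / (2 * Real.sqrt q)| ≤ 1 := by
    rw [abs_div, abs_of_pos (by positivity : (0 : ℝ) < 2 * Real.sqrt q), div_le_one (by positivity)]
    apply abs_le_of_sq_le_sq _ (by positivity)
    rw [mul_pow, Real.sq_sqrt hq.le]
    linarith
  rw [abs_le] at hab
  have hcos : Real.cos θ = s / (2 * Real.sqrt q) := Real.cos_arccos hab.1 hab.2
  have hs' : s = 2 * Real.sqrt q * Real.cos θ := by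
    rw [hcos]
    field_simp
  set z := Complex.exp (Complex.I * θ) with hz
  have hz0 : z ≠ 0 := Complex.exp_ne_zero _
  have hzz : Complex.exp (2 * Complex.I * (θ : ℝ)) = z ^ 2 := by
    rw [hz, ← Complex.exp_nat_mul]
    congr 1
    push_cast
    ring
  have hzc : z + z⁻¹ = 2 * (Real.cos θ : ℝ) := by
    rw [hz, ← Complex.exp_neg, Complex.ofReal_cos, Complex.cos]
    rw [show Complex.I * (θ : ℂ) = (θ : ℂ) * Complex.I by ring,
      show -((θ : ℂ) * Complex.I) = -(θ : ℂ) * Complex.I by ring]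
    ring
  set r : ℂ := ((Real.sqrt q : ℝ) : ℂ) with hr
  have hr2 : r * r = (q : ℂ) := by
    rw [hr, ← Complex.ofReal_mul, Real.mul_self_sqrt hq.le]
  have hr0 : r ≠ 0 := by
    rw [hr]
    exact_mod_cast hsq.ne'
  have hq0 : (q : ℂ) ≠ 0 := by exact_mod_cast hq.ne'
  have hy0 : y ≠ 0 := fun h => hq0 (by rw [← hm, h, mul_zero])
  have hsum : x + y = r * z + r * z⁻¹ := by
    rw [hs, hs', ← mul_add, hzc, hr]
    push_cast
    ring
  have hprod : x * y = (r * z) * (r * z⁻¹) := by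
    rw [hm, ← hr2]
    field_simp
  have hfac : (x - r * z) * (x - r * z⁻¹) = 0 := by
    linear_combination x * hsum - hprod
  rcases mul_eq_zero.1 hfac with h5 | h5
  · left
    have hx : x = r * z := sub_eq_zero.1 h5
    have hy : y = r * z⁻¹ := by
      rw [hx] at hsum
      exact add_left_cancel hsum
    rw [hx, hy, hzz]
    field_simp
  · right
    have hx : x = r * z⁻¹ := sub_eq_zero.1 h5
    have hy : y = r * z := by
      rw [hx, add_comm] at hsum
      have : y + r * z⁻¹ = r * z + r * z⁻¹ := hsum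
      exact add_right_cancel this
    rw [hx, hy, hzz]
    field_simp

theorem li_abs (hV : S_VAL) (hC : S_CORE) (J : Type) [Fintype J] (P : J → ℕ)
    (hP : ∀ i, (P i).Prime) (E : ℕ → ℕ) (hE : ∀ p, 0 < E p) (ζ : ℕ → AlgebraicClosure ℚ)
    (hζ : ∀ p, p.Prime → IsPrimitiveRoot (ζ p) p) (S : J → AlgebraicClosure ℚ)
    (j : AlgebraicClosure ℚ →+* ℂ)
    (hfix : ∀ i (g : AlgebraicClosure ℚ ≃+* AlgebraicClosure ℚ), g (ζ (P i)) = ζ (P i) →
      g (S i) = S i)
    (hreal : ∀ i (φ : AlgebraicClosure ℚ →+* ℂ), (φ (S i)).im = 0 ∧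
      ‖φ (S i)‖ ≤ 2 * Real.sqrt ((P i : ℝ) ^ E (P i)))
    (hcong : ∀ i (p : ℕ) [Fact p.Prime], P i = p → ‖iota p (S i + 1)‖ < 1)
    (hint : ∀ i, IsIntegral ℤ (S i))
    (hinj : ∀ i i', P i = P i' → S i = S i' → i = i')
    (htwo : (∀ i i', P i = 2 → P i' = 2 → i = i') ∨
      ∀ i, P i = 2 → ∃ k : ℤ, S i = 4 * (k : AlgebraicClosure ℚ) - 1)
    (n : J → ℤ) (m : ℤ)
    (hrel : ∑ i, (n i : ℝ) * Real.arccos ((j (S i)).re / (2 * Real.sqrt ((P i : ℝ) ^ E (P i)))) =
      m * Real.pi) : ∀ i, n i = 0 := by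
  classical
  have huw : ∀ i, ∃ u w : AlgebraicClosure ℚ, u + w = S i ∧
      u * w = (P i : AlgebraicClosure ℚ) ^ E (P i) ∧ IsIntegral ℤ u ∧ IsIntegral ℤ w ∧
      (∀ φ : AlgebraicClosure ℚ →+* ℂ, ‖φ u‖ ^ 2 = (P i : ℝ) ^ E (P i)) ∧
      ∀ (p : ℕ) [Fact p.Prime], P i = p → ‖iota p u‖ = 1 := by
    intro i
    have : Fact (P i).Prime := ⟨hP i⟩
    obtain ⟨u, w, h1, h2, h3, h4, h5, h6⟩ := exists_uw hV (P i) (E (P i)) (S i) (hint i)
      (hcong i (P i) rfl) (hreal i)
    refine ⟨u, w, h1, h2, h3, h4, h5, ?_⟩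
    intro p hp hpi
    subst hpi
    exact h6
  choose u w hadd hmul hui hwi habs hun using huw
  -- the signs
  have hsgn : ∀ i, ∃ s : ℤ, (s = 1 ∨ s = -1) ∧ j (u i / w i) =
      Complex.exp (2 * Complex.I *
        (Real.arccos ((j (S i)).re / (2 * Real.sqrt ((P i : ℝ) ^ E (P i)))) : ℝ)) ^ s := by
    intro i
    set q : ℝ := (P i : ℝ) ^ E (P i) with hq
    have hq0 : 0 < q := pow_pos (by exact_mod_cast (hP i).pos) _
    obtain ⟨h1, h2⟩ := hreal i j
    have h3 : j (S i) = ((j (S i)).re : ℂ) := by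
      apply Complex.ext
      · simp
      · simpa using h1
    have h4 : (j (S i)).re ^ 2 ≤ 4 * q := by
      rw [h3, Complex.norm_real, Real.norm_eq_abs] at h2
      have h7 : |(j (S i)).re| ^ 2 ≤ (2 * Real.sqrt q) ^ 2 := by gcongr
      rw [sq_abs, mul_pow, Real.sq_sqrt hq0.le] at h7
      linarith
    have h5 := angle_uw q hq0 (j (u i)) (j (w i)) (j (S i)).re
      (by rw [← map_add, hadd i]; exact h3)
      (by rw [← map_mul, hmul i, map_pow, map_natCast, hq]; push_cast; rfl) h4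
    rcases h5 with h5 | h5
    · exact ⟨1, Or.inl rfl, by rw [map_div₀, h5, zpow_one]⟩
    · exact ⟨-1, Or.inr rfl, by rw [map_div₀, h5, zpow_neg, zpow_one]⟩
  choose s hs hsj using hsgn
  -- the product
  have hprod : ∏ i, (u i / w i) ^ (s i * n i) = 1 := by
    apply j.injective
    rw [map_prod, map_one]
    have h1 : ∀ i, j ((u i / w i) ^ (s i * n i)) = Complex.exp (2 * Complex.I *
        (((n i : ℝ) * Real.arccos ((j (S i)).re / (2 * Real.sqrt ((P i : ℝ) ^ E (P i)))) : ℝ) : ℂ)) := by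
      intro i
      have h2 : s i * (s i * n i) = n i := by
        rcases hs i with h | h <;> rw [h] <;> ring
      rw [map_zpow₀, hsj i, ← zpow_mul, h2, ← Complex.exp_int_mul]
      congr 1
      push_cast
      ring
    simp_rw [h1]
    rw [← Complex.exp_sum, ← Finset.mul_sum, ← Complex.ofReal_sum, hrel]
    rw [Complex.exp_eq_one_iff]
    exact ⟨m, by push_cast; ring⟩
  -- one prime
  intro i0
  have hp : Fact (P i0).Prime := ⟨hP i0⟩
  set p := P i0 with hpdef
  obtain ⟨vadd, vint, vp, vl, vz⟩ := hV p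
  have hunit : ∀ i, P i ≠ p → ∀ g : AlgebraicClosure ℚ ≃+* AlgebraicClosure ℚ,
      ‖iota p (g (u i / w i))‖ = 1 := by
    intro i hi g
    have h1 : ‖iota p (g (u i))‖ * ‖iota p (g (w i))‖ = 1 := by
      rw [← norm_mul, ← map_mul, ← map_mul, hmul i, map_pow, map_natCast, map_pow, norm_pow,
        vl _ (hP i) hi, one_pow]
    have h2 : ‖iota p (g (u i))‖ ≤ 1 := vint _ ((hui i).map g.toRingHom.toIntAlgHom)
    have h3 : ‖iota p (g (w i))‖ ≤ 1 := vint _ ((hwi i).map g.toRingHom.toIntAlgHom)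
    have h4 : ‖iota p (g (u i))‖ = 1 := by
      apply le_antisymm h2
      rw [← not_lt]
      intro h5
      have h6 : ‖iota p (g (u i))‖ * ‖iota p (g (w i))‖ ≤ ‖iota p (g (u i))‖ * 1 := by
        gcongr
      linarith
    have h5 : ‖iota p (g (w i))‖ = 1 := by rwa [h4, one_mul] at h1
    rw [map_div₀, map_div₀, norm_div, h4, h5, div_one]
  have hcore := hC p (E p) (ζ p) {i // P i = p} (fun i => S i.1) (fun i => u i.1) (fun i => w i.1)
    (fun i => s i.1 * n i.1) (hE p) (hζ p hp.out)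
    (fun i g hg => hfix i.1 g (by rw [i.2]; exact hg))
    (fun i => hadd i.1)
    (fun i => by rw [hmul i.1, i.2])
    (fun i => hui i.1) (fun i => hwi i.1)
    (fun i φ => by rw [habs i.1 φ, i.2])
    (fun i => hcong i.1 p i.2)
    (fun i => hun i.1 p i.2)
    (fun i i' h => Subtype.ext (hinj i.1 i'.1 (i.2.trans i'.2.symm) h))
    (fun h2 => by
      rcases htwo with h3 | h3
      · left
        exact ⟨fun i i' => Subtype.ext (h3 i.1 i'.1 (i.2.trans h2) (i'.2.trans h2))⟩
      · right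
        exact fun i => h3 i.1 (i.2.trans h2))
    (fun g => by
      have h1 := congrArg (fun x => ‖iota p (g x)‖) hprod
      simp only [map_one, norm_one] at h1
      rw [← Fintype.prod_subtype_mul_prod_subtype (fun i => P i = p)
        (fun i => (u i / w i) ^ (s i * n i)), map_mul, map_mul, norm_mul] at h1
      have h2 : ‖iota p (g (∏ i : {i // ¬ P i = p}, (u i.1 / w i.1) ^ (s i.1 * n i.1)))‖ = 1 := by
        rw [map_prod, map_prod, norm_prod]
        apply Finset.prod_eq_one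
        intro i _
        rw [map_zpow₀, map_zpow₀, norm_zpow, hunit i.1 i.2 g, one_zpow]
      rw [h2, mul_one] at h1
      exact h1)
  have h1 := hcore ⟨i0, rfl⟩
  rcases mul_eq_zero.1 h1 with h2 | h2
  · exfalso
    rcases hs i0 with h | h <;> rw [h] at h2 <;> norm_num at h2
  · exact h2

end Pool.Agent.H856.KA
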