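import Pool.Agent.H856.WD.PlaProof

/-! # The angles of Kloosterman sums: definitions and statements -/

set_option autoImplicit false

open Polynomial

namespace Pool.Agent.H856.KA

open Pool.Agent.H856.WD

/-- the Kloosterman sum over the finite field `F` (an algebra over `ZMod p`) with respect to the `p`-th
root of unity `ζ`: the sum of `ζ ^ Tr (a x + 1 / x)` over all `x ≠ 0` -/
noncomputable def klo {R : Type} [CommRing R] (p : ℕ) (ζ : R) (F : Type) [Field F]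
    [Algebra (ZMod p) F] (a : F) : R :=
  ∑ᶠ x : Fˣ, ζ ^ (Algebra.trace (ZMod p) F (a * (x : F) + ((x⁻¹ : Fˣ) : F))).val

/-- the `p`-th root of unity `e(1/p)` -/
noncomputable def ep (p : ℕ) : ℂ := Complex.exp (2 * Real.pi * Complex.I / p)

/-! `iota p` is the embedding of the algebraic numbers in the algebraic closure of the `p`-adic numbers,
`‖iota p x‖` the `p`-adic absolute value -/

/-- VAL: basic properties of the absolute value -/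
def S_VAL : Prop :=
  ∀ (p : ℕ) [Fact p.Prime],
    (∀ x y, ‖iota p (x + y)‖ ≤ max ‖iota p x‖ ‖iota p y‖) ∧
    (∀ x, IsIntegral ℤ x → ‖iota p x‖ ≤ 1) ∧
    ‖iota p (p : AlgebraicClosure ℚ)‖ < 1 ∧
    (∀ l : ℕ, l.Prime → l ≠ p → ‖iota p (l : AlgebraicClosure ℚ)‖ = 1) ∧
    (∀ ζ : AlgebraicClosure ℚ, IsPrimitiveRoot ζ p → ‖iota p (ζ - 1)‖ < 1)

/-- C1: a root of unity which is congruent to one has an order which is a power of `p` -/
def S_C1 : Prop :=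
  ∀ (p : ℕ) [Fact p.Prime] (y : AlgebraicClosure ℚ) (m : ℕ), 0 < m → y ^ m = 1 →
    ‖iota p (y - 1)‖ < 1 → ∃ k : ℕ, y ^ p ^ k = 1

/-- C2: roots of unity of order a power of `p` with at most two conjugates over `ℚ(ζ)` -/
def S_C2 : Prop :=
  ∀ (p : ℕ) [Fact p.Prime] (ζ y : AlgebraicClosure ℚ) (k : ℕ), IsPrimitiveRoot ζ p →
    y ^ p ^ k = 1 →
    (∀ g : AlgebraicClosure ℚ ≃+* AlgebraicClosure ℚ, g ζ = ζ → g y = y ∨ g y = y⁻¹) →
    (∃ g : AlgebraicClosure ℚ ≃+* AlgebraicClosure ℚ, g ζ = ζ ∧ g y = y⁻¹) →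
    (p ≠ 2 → y = 1) ∧ (p = 2 → y ^ 4 = 1)

/-- C3: the two roots of an ordinary quadratic polynomial are conjugate over `ℚ(ζ)` -/
def S_C3 : Prop :=
  ∀ (p : ℕ) [Fact p.Prime] (e : ℕ) (ζ u w : AlgebraicClosure ℚ), 0 < e → IsPrimitiveRoot ζ p →
    u * w = (p : AlgebraicClosure ℚ) ^ e →
    (∀ g : AlgebraicClosure ℚ ≃+* AlgebraicClosure ℚ, g ζ = ζ → g (u + w) = u + w) →
    (∀ φ : AlgebraicClosure ℚ →+* ℂ, ‖φ u‖ ^ 2 = (p : ℝ) ^ e) →
    ‖iota p u‖ = 1 →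
    ∃ g : AlgebraicClosure ℚ ≃+* AlgebraicClosure ℚ, g ζ = ζ ∧ g u = w

/-- KLA: Weil's bound: the Kloosterman sums are real, of absolute value at most `2 √q`, for odd `q` and
for `q = 2` -/
def S_KLA : Prop :=
  ∀ (p : ℕ) [Fact p.Prime] (F : Type) [Field F] [Finite F] [Algebra (ZMod p) F] (a : F) (z : ℂ),
    a ≠ 0 → IsPrimitiveRoot z p → (p = 2 → Nat.card F = 2) →
    (klo p z F a).im = 0 ∧ ‖klo p z F a‖ ≤ 2 * Real.sqrt (Nat.card F)

/-- KLB: the same for all even `q` -/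
def S_KLB : Prop :=
  ∀ (F : Type) [Field F] [Finite F] [Algebra (ZMod 2) F] (a : F), a ≠ 0 →
    ‖klo 2 (-1 : ℂ) F a‖ ≤ 2 * Real.sqrt (Nat.card F)

/-- KLC: Kloosterman sums are congruent to `-1` -/
def S_KLC : Prop :=
  ∀ (p : ℕ) [Fact p.Prime] (F : Type) [Field F] [Finite F] [Algebra (ZMod p) F] (a : F)
    (ζ : AlgebraicClosure ℚ), a ≠ 0 → IsPrimitiveRoot ζ p → ‖iota p (klo p ζ F a + 1)‖ < 1

/-- KLD: for `q = 2 ^ n`, `n ≥ 2`, they are congruent to `-1` modulo `4` -/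
def S_KLD : Prop :=
  ∀ (F : Type) [Field F] [Finite F] [Algebra (ZMod 2) F] (a : F), a ≠ 0 → 2 < Nat.card F →
    ∃ k : ℤ, klo 2 (-1 : ℤ) F a = 4 * k - 1

/-- KLE: the Kloosterman sums modulo `p` are different -/
def S_KLE : Prop :=
  ∀ (p : ℕ) [Fact p.Prime] (K : Type) [Field K] [CharZero K] (ζ : K) (a b : ZMod p),
    IsPrimitiveRoot ζ p → a ≠ 0 → b ≠ 0 → klo p ζ (ZMod p) a = klo p ζ (ZMod p) b → a = b

/-- EXT: the Kloosterman sums over the extensions of `ZMod p` -/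
def S_EXT : Prop :=
  ∀ (p : ℕ) [Fact p.Prime] (a : ZMod p) (θ : ℝ), a ≠ 0 →
    klo p (ep p) (ZMod p) a = ((2 * Real.sqrt p * Real.cos θ : ℝ) : ℂ) →
    ∀ m : ℕ, 0 < m → klo p (ep p) (GaloisField p m) (algebraMap (ZMod p) (GaloisField p m) a) =
      (((-1) ^ (m - 1) * (2 * Real.sqrt p ^ m * Real.cos (m * θ)) : ℝ) : ℂ)

/-- KW: the theorem of Kronecker and Weyl, for the numbers `± 2 cos (m θ i)` -/
def S_KW : Prop :=
  ∀ (r : ℕ) (θ : Fin r → ℝ),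
    (∀ (n : Fin r → ℤ) (m : ℤ), ∑ i, (n i : ℝ) * θ i = m * Real.pi → (∀ i, n i = 0) ∧ m = 0) →
    ∀ f : (Fin r → ℝ) → ℝ, Continuous f →
      Filter.Tendsto (fun M : ℕ => (∑ m ∈ Finset.Icc 1 M,
        f (fun i => (-1 : ℝ) ^ (m - 1) * (2 * Real.cos (m * θ i)))) / (M : ℝ)) Filter.atTop
        (nhds (∫ t in Set.Icc (0 : Fin r → ℝ) 1, f (fun i => 2 * Real.cos (2 * Real.pi * t i))))

/-- CORE: the independence for one prime -/
def S_CORE : Prop :=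
  ∀ (p : ℕ) [Fact p.Prime] (e : ℕ) (ζ : AlgebraicClosure ℚ) (I : Type) [Fintype I]
    (S u w : I → AlgebraicClosure ℚ) (n : I → ℤ),
    0 < e → IsPrimitiveRoot ζ p →
    (∀ i (g : AlgebraicClosure ℚ ≃+* AlgebraicClosure ℚ), g ζ = ζ → g (S i) = S i) →
    (∀ i, u i + w i = S i) → (∀ i, u i * w i = (p : AlgebraicClosure ℚ) ^ e) →
    (∀ i, IsIntegral ℤ (u i)) → (∀ i, IsIntegral ℤ (w i)) →
    (∀ i (φ : AlgebraicClosure ℚ →+* ℂ), ‖φ (u i)‖ ^ 2 = (p : ℝ) ^ e) →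
    (∀ i, ‖iota p (S i + 1)‖ < 1) → (∀ i, ‖iota p (u i)‖ = 1) → Function.Injective S →
    (p = 2 → Subsingleton I ∨ ∀ i, ∃ k : ℤ, S i = 4 * (k : AlgebraicClosure ℚ) - 1) →
    (∀ g : AlgebraicClosure ℚ ≃+* AlgebraicClosure ℚ, ‖iota p (g (∏ i, (u i / w i) ^ n i))‖ = 1) →
    ∀ i, n i = 0

end Pool.Agent.H856.KA
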